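import Mathlib
import Pool.Agent.Helper669.Forcing

/-!
# Approximations of closed sets of points of the Cantor space

A function `g : ℕ → ℕ` codes a sequence of finite sets of binary strings, and the `F_σ` set of all
points which for almost all `n` extend a member of the `n`-th set. The relation `Psi` is the
finite approximation of the statement that the closed sets coded by the functions `u β`, `β ∈ s`,
and the clopen set given by `U` avoid a closed hypergraph.
-/

namespace Pool.Agent.H504.BP

open Pool.Agent.Helper669.Forcing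

universe u v

/-- the finite set of strings coded by `m` -/
def dec (m : ℕ) : Finset (List Bool) := (Encodable.decode m).getD ∅

theorem dec_encode (U : Finset (List Bool)) : dec (Encodable.encode U) = U := by
  simp [dec]

/-- `y` is comparable with some member of `U` -/
def Comp (U : Finset (List Bool)) (y : List Bool) : Prop := ∃ σ ∈ U, σ <+: y ∨ y <+: σ

/-- the string `y` is compatible, from stage `n` to stage `M`, with one of the sequences `u β`,
`β ∈ s` -/
def Adm1 {K : Type v} (u : K → ℕ → ℕ) (s : Finset K) (n M : ℕ) (y : List Bool) : Prop :=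
  ∃ β ∈ s, ∀ m, n ≤ m → m ≤ M → Comp (dec (u β m)) y

/-- all lists of strings of length `M`, pairwise different up to `n`, which are compatible with
`U` or with one of the sequences `u β`, `β ∈ s`, are safe, and no string is compatible with both -/
def Psi {K : Type v} (Safe : ℕ → List (List Bool) → Prop) (u : K → ℕ → ℕ) (s : Finset K)
    (n M : ℕ) (U : Finset (List Bool)) : Prop :=
  n ≤ M ∧
  (∀ L : List (List Bool), (∀ y ∈ L, y.length = M ∧ (Comp U y ∨ Adm1 u s n M y)) →
    (L.Pairwise fun y y' => y.take n ≠ y'.take n) → Safe n L) ∧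
  ∀ y : List Bool, y.length = M → Comp U y → ¬ Adm1 u s n M y

section

variable {K : Type v} {Safe : ℕ → List (List Bool) → Prop}

theorem Adm1.mono {u : K → ℕ → ℕ} {s t : Finset K} {n M : ℕ} {y : List Bool}
    (h : Adm1 u s n M y) (hst : s ⊆ t) : Adm1 u t n M y := by
  obtain ⟨β, hβ, h'⟩ := h
  exact ⟨β, hst hβ, h'⟩

theorem Adm1.congr {u v : K → ℕ → ℕ} {s : Finset K} {n M : ℕ} {y : List Bool}
    (h : Adm1 u s n M y) (he : ∀ β ∈ s, ∀ m ≤ M, u β m = v β m) : Adm1 v s n M y := by
  obtain ⟨β, hβ, h'⟩ := h
  refine ⟨β, hβ, fun m h1 h2 => ?_⟩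
  rw [← he β hβ m h2]
  exact h' m h1 h2

theorem Psi.congr {u v : K → ℕ → ℕ} {s : Finset K} {n M : ℕ} {U : Finset (List Bool)}
    (h : Psi Safe u s n M U) (he : ∀ β ∈ s, ∀ m ≤ M, u β m = v β m) : Psi Safe v s n M U := by
  have he' : ∀ β ∈ s, ∀ m ≤ M, v β m = u β m := fun β hβ m hm => (he β hβ m hm).symm
  refine ⟨h.1, fun L hL hp => h.2.1 L (fun y hy => ⟨(hL y hy).1, ?_⟩) hp, fun y hy hc ha => ?_⟩
  · rcases (hL y hy).2 with h1 | h1
    · exact Or.inl h1
    · exact Or.inr (h1.congr he')
  · exact h.2.2 y hy hc (ha.congr he')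

theorem Psi.mono {u : K → ℕ → ℕ} {s t : Finset K} {n M : ℕ} {U : Finset (List Bool)}
    (h : Psi Safe u t n M U) (hst : s ⊆ t) : Psi Safe u s n M U := by
  refine ⟨h.1, fun L hL hp => h.2.1 L (fun y hy => ⟨(hL y hy).1, ?_⟩) hp, fun y hy hc ha => ?_⟩
  · rcases (hL y hy).2 with h1 | h1
    · exact Or.inl h1
    · exact Or.inr (h1.mono hst)
  · exact h.2.2 y hy hc (ha.mono hst)

theorem not_comp_empty (y : List Bool) : ¬ Comp ∅ y := by
  rintro ⟨σ, h, _⟩
  exact absurd h (Finset.notMem_empty σ)

theorem Psi.empty_insert [DecidableEq K] (hanti : ∀ n m L, n ≤ m → Safe m L → Safe n L)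
    {u : K → ℕ → ℕ} {s : Finset K} {β : K} {n m M : ℕ} (hnm : n ≤ m)
    (h : Psi Safe u s m M (dec (u β m))) : Psi Safe u (insert β s) n M ∅ := by
  refine ⟨hnm.trans h.1, fun L hL hp => ?_, fun y _ hc _ => not_comp_empty y hc⟩
  apply hanti n m L hnm
  refine h.2.1 L (fun y hy => ⟨(hL y hy).1, ?_⟩) (hp.imp fun {a b} hab hab' => hab ?_)
  · rcases (hL y hy).2 with h1 | ⟨γ, hγ, h1⟩
    · exact absurd h1 (not_comp_empty y)
    · rcases Finset.mem_insert.1 hγ with rfl | hγ
      · exact Or.inl (h1 m hnm h.1)
      · exact Or.inr ⟨γ, hγ, fun j hj hj' => h1 j (hnm.trans hj) hj'⟩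
  · have h1 : (a.take m).take n = (b.take m).take n := by rw [hab']
    rw [List.take_take, List.take_take, min_eq_left hnm] at h1
    exact h1

theorem Psi.empty_empty (hnil : ∀ n, Safe n []) (u : K → ℕ → ℕ) (n : ℕ) :
    Psi Safe u ∅ n n ∅ := by
  refine ⟨le_rfl, fun L hL _ => ?_, fun y _ hc _ => not_comp_empty y hc⟩
  have : L = [] := by
    rcases L with _ | ⟨y, L⟩
    · rfl
    · exfalso
      rcases (hL y (by simp)).2 with h1 | ⟨γ, hγ, _⟩
      · exact not_comp_empty y h1
      · exact absurd hγ (Finset.notMem_empty γ)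
  rw [this]
  exact hnil n

end

/-! ### The statements in the forcing language -/

section

variable {P : Type u} [Preorder P] {K : Type u}

/-- the string `σ` is an initial segment of (the characteristic function of) the named subset
`x` of `ℕ` -/
def Init (σ : List Bool) (x : ℕ → Set P) : Set P :=
  fall fun i : ℕ => fall fun _ : i < σ.length =>
    fand (fall fun _ : σ.getD i false = true => meets (x i))
      (fall fun _ : σ.getD i false = false => fnot (meets (x i)))

/-- `Psi` for the named functions `g β` -/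
def FPsi (Safe : ℕ → List (List Bool) → Prop) (g : K → ℕ → ℕ → Set P) (s : Finset K) (n M : ℕ)
    (U : Finset (List Bool)) : Set P :=
  fex fun u : K → ℕ → ℕ => fand
    (fall fun β : K => fall fun _ : β ∈ s => fall fun m : ℕ => fall fun _ : m ≤ M =>
      meets (g β m (u β m)))
    (fground (Psi Safe u s n M U))

/-- the named point `x` extends some member of `U` -/
def Hit (U : Finset (List Bool)) (x : ℕ → Set P) : Set P :=
  fex fun σ : List Bool => fand (fground (σ ∈ U)) (Init σ x)

/-- the named point `x` belongs to the `F_σ` set coded by the named function `g` -/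
def InC (g : ℕ → ℕ → Set P) (x : ℕ → Set P) : Set P :=
  fex fun N : ℕ => fall fun n : ℕ => fall fun _ : N ≤ n =>
    fex fun a : ℕ => fand (meets (g n a)) (Hit (dec a) x)

/-- the first clause: independence of the sets coded by the `g k` -/
def FInd (Safe : ℕ → List (List Bool) → Prop) [LT K] (g : K → ℕ → ℕ → Set P) : Set P :=
  fall fun k : K => fall fun s : Finset K => fall fun _ : ∀ β ∈ s, β < k =>
    fex fun N : ℕ => fall fun n : ℕ => fall fun _ : N ≤ n => fex fun M : ℕ => fex fun a : ℕ =>
      fand (meets (g k n a)) (FPsi Safe g s n M (dec a))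

/-- the points `Y` and `x` depend on the sets coded by the `g β`, `β < k` -/
def FDep (Safe : ℕ → List (List Bool) → Prop) [LT K] (g : K → ℕ → ℕ → Set P) (k : K) {j : ℕ}
    (Y : Fin j → ℕ → Set P) (x : ℕ → Set P) : Set P :=
  fex fun s : Finset K => fand (fground (∀ β ∈ s, β < k)) (fex fun n : ℕ =>
    fall fun M : ℕ => fall fun U : Finset (List Bool) =>
      fimp (fand (fall fun i => Hit U (Y i)) (Hit U x)) (fnot (FPsi Safe g s n M U)))

/-- the second clause: every point depends on the sets coded by the `g k` -/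
def FCov (Safe : ℕ → List (List Bool) → Prop) [LT K] (g : K → ℕ → ℕ → Set P) : Set P :=
  fall fun x : ℕ → Set P => fex fun k : K => fex fun j : ℕ => fex fun Y : Fin j → ℕ → Set P =>
    fand (fall fun i => InC (g k) (Y i))
      (fnot (fand (fnot (InC (g k) x)) (fnot (FDep Safe g k Y x))))

theorem down_Init (σ : List Bool) (x : ℕ → Set P) : Down (Init σ x) :=
  down_fall fun _ => down_fall fun _ => down_fand (down_fall fun _ => down_meets _)
    (down_fall fun _ => down_fnot _)

theorem down_FPsi (Safe : ℕ → List (List Bool) → Prop) (g : K → ℕ → ℕ → Set P) (s : Finset K)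
    (n M : ℕ) (U : Finset (List Bool)) : Down (FPsi Safe g s n M U) := down_fex _

theorem down_Hit (U : Finset (List Bool)) (x : ℕ → Set P) : Down (Hit U x) := down_fex _

theorem down_InC (g : ℕ → ℕ → Set P) (x : ℕ → Set P) : Down (InC g x) := down_fex _

end

end Pool.Agent.H504.BP
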