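import Mathlib
import Pool.Agent.H504.BP.Big

/-!
# The combinatorial hypothesis and its consistency
-/

namespace Pool.Agent.H504.BP

open Cardinal Pool.Agent.Helper669.Iter Pool.Agent.Helper669.Forcing Pool.Agent.Helper669.GBase
  Pool.Agent.Helper669.Forcing2

set_option linter.unusedSectionVars false

universe u

/-! ### The hypothesis -/

/-- `σ` is an initial segment of `x` -/
def Pre (σ : List Bool) (x : ℕ → Bool) : Prop := ∀ i < σ.length, σ.getD i false = x i

/-- `x` belongs to the `F_σ` set coded by `g` -/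
def MemC (g : ℕ → ℕ) (x : ℕ → Bool) : Prop := ∃ N, ∀ n, N ≤ n → ∃ σ ∈ dec (g n), Pre σ x

/-- the `F_σ` sets coded by the functions `g k` are independent -/
def Ind (Safe : ℕ → List (List Bool) → Prop) {K : Type u} [LT K] (g : K → ℕ → ℕ) : Prop :=
  ∀ k : K, ∀ s : Finset K, (∀ β ∈ s, β < k) →
    ∃ N, ∀ n, N ≤ n → ∃ M, Psi Safe g s n M (dec (g k n))

/-- the points `Y` and `x` depend on the sets coded by the `g β`, `β < k` -/
def Dep (Safe : ℕ → List (List Bool) → Prop) {K : Type u} [LT K] (g : K → ℕ → ℕ) (k : K) {j : ℕ}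
    (Y : Fin j → ℕ → Bool) (x : ℕ → Bool) : Prop :=
  ∃ s : Finset K, (∀ β ∈ s, β < k) ∧ ∃ n : ℕ, ∀ M : ℕ, ∀ U : Finset (List Bool),
    (∀ i, ∃ σ ∈ U, Pre σ (Y i)) → (∃ σ ∈ U, Pre σ x) → ¬ Psi Safe g s n M U

/-- every point depends on the sets coded by the `g k` -/
def Cov (Safe : ℕ → List (List Bool) → Prop) {K : Type u} [LT K] (g : K → ℕ → ℕ) : Prop :=
  ∀ x : ℕ → Bool, ∃ k : K, ∃ j : ℕ, ∃ Y : Fin j → ℕ → Bool, (∀ i, MemC (g k) (Y i)) ∧
    (MemC (g k) x ∨ Dep Safe g k Y x)

/-- there are `F_σ` sets indexed by `K` whose union is a maximal independent set, and `K` has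
smaller cardinality than the continuum -/
def HH (Safe : ℕ → List (List Bool) → Prop) (K : Type u) [LT K] : Prop :=
  (∃ g : K → ℕ → ℕ, Ind Safe g ∧ Cov Safe g) ∧
    ¬ ∃ E : K → ℕ → Bool, ∀ x : ℕ → Bool, ∃ k, x = E k

/-- the hypothesis `HH` holds in the extension -/
def FH (Safe : ℕ → List (List Bool) → Prop) (P : Type u) [Preorder P] (K : Type u) [LT K] :
    Set P :=
  fand
    (fex fun g : K → ℕ → ℕ → Set P => fand (fall fun k => IsFun (g k))
      (fand (FInd Safe g) (FCov Safe g)))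
    (LtContinuum P K)

/-! ### The consistency -/

theorem wf_lex {X K : Type u} [LinearOrder X] [WellFoundedLT X] [LinearOrder K]
    [WellFoundedLT K] : WellFoundedLT (Lex (X ⊕ K)) :=
  ⟨Sum.lex_wf (wellFounded_lt (α := X)) (wellFounded_lt (α := K))⟩

theorem exists_poset {Safe : ℕ → List (List Bool) → Prop}
    (hanti : ∀ n m L, n ≤ m → Safe m L → Safe n L) (hnil : ∀ n, Safe n [])
    {K : Type u} [LinearOrder K] [WellFoundedLT K] [Nonempty K]
    (hcof : ∀ S : Set K, S.Countable → ∃ b, ∀ s ∈ S, s < b) :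
    ∃ (P : Type u) (_ : Preorder P), Nonempty P ∧
      ∀ p : P, p ∈ CardinalsPreserved.{u, u} P ∧ p ∈ FH Safe P K := by
  classical
  let κ : Cardinal.{u} := Order.succ (#K * ℵ₀)
  let X : Type u := κ.ord.ToType
  have hX : #K * ℵ₀ < #X := by
    show _ < #(κ.ord.ToType)
    rw [mk_toType, card_ord]
    exact Order.lt_succ _
  have hwf : WellFoundedLT (Lex (X ⊕ K)) := wf_lex
  let e : K → Lex (X ⊕ K) := fun k => toLex (Sum.inr k)
  have he : StrictMono e := fun a b h => Sum.Lex.inr_lt_inr_iff.2 h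
  have hH : Hyp Safe e := ⟨he, hanti, hnil⟩
  have hcof' : ∀ S : Set (Lex (X ⊕ K)), #S ≤ ℵ₀ → ∃ b, ∀ s ∈ S, s < b := by
    intro S hS
    have hSc : S.Countable := Cardinal.le_aleph0_iff_set_countable.1 hS
    have h1 : (e ⁻¹' S).Countable := hSc.preimage_of_injOn he.injective.injOn
    obtain ⟨b, hb⟩ := hcof _ h1
    refine ⟨e b, fun s hs => ?_⟩
    rcases h : ofLex s with x | k
    · have : s = toLex (Sum.inl x) := by rw [← h]; rfl
      rw [this]
      exact Sum.Lex.inl_lt_inr x b
    · have hsk : s = e k := by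
        show s = toLex (Sum.inr k)
        rw [← h]; rfl
      rw [hsk]
      exact he (hb k (by show e k ∈ S; rw [← hsk]; exact hs))
  have hsp : ∀ b : Lex (X ⊕ K), ∃ k : K, b ≤ e k := by
    intro b
    rcases h : ofLex b with x | k
    · have : b = toLex (Sum.inl x) := by rw [← h]; rfl
      rw [this]
      exact ⟨Classical.arbitrary K, (Sum.Lex.inl_lt_inr x _).le⟩
    · have hsk : b = e k := by
        show b = toLex (Sum.inr k)
        rw [← h]; rfl
      exact ⟨k, hsk.le⟩
  refine ⟨PB Safe e, inferInstance, inferInstance, fun p => ⟨cardinalsPreserved p, ?_, ?_⟩⟩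
  · exact mem_fex_of_mem (Sn Safe e) (down_fand (down_fall fun _ => down_IsFun _)
      (down_fand (down_fall fun _ => down_fall fun _ => down_fall fun _ => down_fex _)
        (down_fall fun _ => down_fex _)))
      ⟨fun k => isFun_Sn hH k p, fInd hH p, fCov hH hcof' hsp p⟩
  · refine ltContinuum (c := fun x : X => (toLex (Sum.inl x) : Lex (X ⊕ K)))
      (fun a b h => ?_) (fun x k h => ?_) hX p
    · exact Sum.inl_injective (toLex.injective h)
    · exact absurd (toLex.injective h) (by simp)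

end Pool.Agent.H504.BP
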