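import Mathlib
import Pool.Agent.H504.BP.Stmt

/-!
# The coded `F_σ` sets are disjoint and their union is a maximal independent set
-/

namespace Pool.Agent.H504.BP

universe u

/-- the initial segment of length `ℓ` -/
def restr (ℓ : ℕ) (x : ℕ → Bool) : List Bool := (List.range ℓ).map x

@[simp] theorem length_restr (ℓ : ℕ) (x : ℕ → Bool) : (restr ℓ x).length = ℓ := by simp [restr]

theorem getD_restr {i ℓ : ℕ} (h : i < ℓ) (x : ℕ → Bool) : (restr ℓ x).getD i false = x i := by
  rw [List.getD_eq_getElem _ _ (by simpa using h)]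
  simp [restr]

theorem take_restr {n M : ℕ} (h : n ≤ M) (x : ℕ → Bool) : (restr M x).take n = restr n x := by
  rw [restr, ← List.map_take, List.take_range, min_eq_left h]
  rfl

theorem restr_prefix {n M : ℕ} (h : n ≤ M) (x : ℕ → Bool) : restr n x <+: restr M x := by
  rw [← take_restr h x]
  exact List.take_prefix _ _

theorem pre_iff {σ : List Bool} {x : ℕ → Bool} : Pre σ x ↔ σ = restr σ.length x := by
  constructor
  · intro h
    apply List.ext_getElem (by simp)
    intro i h1 h2
    have h3 := h i h1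
    rw [List.getD_eq_getElem _ _ h1] at h3
    rw [h3]
    simp [restr]
  · intro h i hi
    rw [h, getD_restr hi]

theorem pre_restr (ℓ : ℕ) (x : ℕ → Bool) : Pre (restr ℓ x) x := by
  rw [pre_iff, length_restr]

theorem restr_eq_iff {ℓ : ℕ} {x y : ℕ → Bool} : restr ℓ x = restr ℓ y ↔ ∀ i < ℓ, x i = y i := by
  simp [restr]

theorem comp_of_pre {U : Finset (List Bool)} {σ : List Bool} (hσ : σ ∈ U) {x : ℕ → Bool}
    (h : Pre σ x) (M : ℕ) : Comp U (restr M x) := by
  rw [pre_iff] at h
  refine ⟨σ, hσ, ?_⟩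
  rcases le_total σ.length M with h1 | h1
  · left
    rw [h]
    exact restr_prefix h1 x
  · right
    rw [h]
    exact restr_prefix h1 x

theorem comp_restr_anti {U : Finset (List Bool)} {x : ℕ → Bool} {m M : ℕ} (hm : m ≤ M)
    (h : Comp U (restr M x)) : Comp U (restr m x) := by
  obtain ⟨σ, hσ, h1 | h1⟩ := h
  · refine ⟨σ, hσ, ?_⟩
    exact List.prefix_or_prefix_of_prefix h1 (restr_prefix hm x)
  · exact ⟨σ, hσ, Or.inr ((restr_prefix hm x).trans h1)⟩

theorem exists_sep {x y : ℕ → Bool} (h : x ≠ y) : ∃ N, ∀ n, N ≤ n → restr n x ≠ restr n y := by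
  obtain ⟨i, hi⟩ := Function.ne_iff.1 h
  exact ⟨i + 1, fun n hn he => hi (restr_eq_iff.1 he i (by omega))⟩

/-- the properties of the safety relation -/
structure SafeHyp (Safe : ℕ → List (List Bool) → Prop) : Prop where
  hanti : ∀ n m L, n ≤ m → Safe m L → Safe n L
  hnil : ∀ n, Safe n []
  hext : ∀ n L L', List.Forall₂ (fun a b : List Bool => a <+: b) L L' → Safe n L → Safe n L'

section

variable {K : Type u} [LinearOrder K] {Safe : ℕ → List (List Bool) → Prop} {g : K → ℕ → ℕ}

/-- the coded sets are pairwise disjoint -/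
theorem disj (hI : Ind Safe g) {k k' : K} {x : ℕ → Bool} (h : MemC (g k) x)
    (h' : MemC (g k') x) : k = k' := by
  have key : ∀ {k k' : K}, k' < k → MemC (g k) x → MemC (g k') x → False := by
    intro k k' hlt h h'
    obtain ⟨N, hN⟩ := h
    obtain ⟨N', hN'⟩ := h'
    obtain ⟨N0, h0⟩ := hI k {k'} (by simpa using hlt)
    set n := max N0 (max N N') with hn
    obtain ⟨M, hM⟩ := h0 n (le_max_left _ _)
    obtain ⟨σ, hσ, hσx⟩ := hN n ((le_max_left _ _).trans (le_max_right _ _))
    refine hM.2.2 (restr M x) (length_restr _ _) (comp_of_pre hσ hσx M)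
      ⟨k', Finset.mem_singleton_self _, fun m hm _ => ?_⟩
    obtain ⟨τ, hτ, hτx⟩ := hN' m (((le_max_right _ _).trans (le_max_right _ _)).trans hm)
    exact comp_of_pre hτ hτx M
  rcases lt_trichotomy k k' with hlt | heq | hlt
  · exact (key hlt h' h).elim
  · exact heq
  · exact (key hlt h h').elim

/-- the union of the coded sets is independent -/
theorem indep (hS : SafeHyp Safe) (hI : Ind Safe g) (Z : List (ℕ → Bool)) (hZ : Z.Nodup)
    (hT : ∀ z ∈ Z, ∃ k, MemC (g k) z) (n : ℕ) : ∃ ℓ, Safe n (Z.map (restr ℓ)) := by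
  classical
  rcases Z with _ | ⟨z0, Z'⟩
  · exact ⟨0, hS.hnil n⟩
  set Z := z0 :: Z' with hZdef
  obtain ⟨k0, _⟩ := hT z0 (by simp [hZdef])
  have h1 : ∀ z, ∃ k, z ∈ Z → MemC (g k) z := fun z => by
    by_cases hz : z ∈ Z
    · obtain ⟨k, hk⟩ := hT z hz
      exact ⟨k, fun _ => hk⟩
    · exact ⟨k0, fun h => absurd h hz⟩
  choose kz hkz using h1
  have h2 : ∀ z, ∃ N, z ∈ Z → ∀ n, N ≤ n → ∃ σ ∈ dec (g (kz z) n), Pre σ z := fun z => by
    by_cases hz : z ∈ Z
    · obtain ⟨N, hN⟩ := hkz z hz
      exact ⟨N, fun _ => hN⟩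
    · exact ⟨0, fun h => absurd h hz⟩
  choose Nz hNz using h2
  have h3 : ∀ p : (ℕ → Bool) × (ℕ → Bool), ∃ N, p.1 ≠ p.2 → ∀ n, N ≤ n →
      restr n p.1 ≠ restr n p.2 := fun p => by
    by_cases hp : p.1 ≠ p.2
    · obtain ⟨N, hN⟩ := exists_sep hp
      exact ⟨N, fun _ => hN⟩
    · exact ⟨0, fun h => absurd h hp⟩
  choose Ns hNs using h3
  set S : Finset K := Z.toFinset.image kz with hS'
  have hSne : S.Nonempty := ⟨kz z0, Finset.mem_image_of_mem _ (by simp [hZdef])⟩
  set k := S.max' hSne with hk
  set s := S.erase k with hs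
  have hsk : ∀ β ∈ s, β < k := by
    intro β hβ
    obtain ⟨h4, h5⟩ := Finset.mem_erase.1 hβ
    exact lt_of_le_of_ne (S.le_max' β h5) h4
  obtain ⟨N0, hN0⟩ := hI k s hsk
  set N1 := Z.toFinset.sup Nz with hN1
  set N2 := (Z.toFinset ×ˢ Z.toFinset).sup Ns with hN2
  set n' := max (max n N0) (max N1 N2) with hn'
  obtain ⟨M, hM⟩ := hN0 n' ((le_max_right _ _).trans (le_max_left _ _))
  refine ⟨M, hS.hanti n n' _ ((le_max_left _ _).trans (le_max_left _ _))
    (hM.2.1 (Z.map (restr M)) ?_ ?_)⟩
  · intro y hy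
    obtain ⟨z, hz, rfl⟩ := List.mem_map.1 hy
    refine ⟨length_restr _ _, ?_⟩
    have hzf : z ∈ Z.toFinset := List.mem_toFinset.2 hz
    have hNzn : Nz z ≤ n' := (Finset.le_sup (f := Nz) hzf).trans
      ((le_max_left _ _).trans (le_max_right _ _))
    by_cases hkk : kz z = k
    · left
      obtain ⟨σ, hσ, hσz⟩ := hNz z hz n' hNzn
      rw [hkk] at hσ
      exact comp_of_pre hσ hσz M
    · right
      refine ⟨kz z, Finset.mem_erase.2 ⟨hkk, Finset.mem_image_of_mem _ hzf⟩, fun m hm _ => ?_⟩
      obtain ⟨σ, hσ, hσz⟩ := hNz z hz m (hNzn.trans hm)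
      exact comp_of_pre hσ hσz M
  · rw [List.pairwise_map]
    refine List.Pairwise.imp_of_mem (fun {a b} ha hb hab => ?_) hZ
    rw [take_restr hM.1, take_restr hM.1]
    refine hNs (a, b) hab n' ?_
    have hmem : ((a, b) : (ℕ → Bool) × (ℕ → Bool)) ∈ Z.toFinset ×ˢ Z.toFinset :=
      Finset.mem_product.2 ⟨List.mem_toFinset.2 ha, List.mem_toFinset.2 hb⟩
    exact (Finset.le_sup (f := Ns) hmem).trans ((le_max_right _ _).trans (le_max_right _ _))

theorem exists_alt {ι : Type*} [Finite ι] (P : ι → ℕ → Prop) (hP : ∀ i M, P i (M + 1) → P i M)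
    (h : ∀ M, ∃ i, P i M) : ∃ i, ∀ M, P i M := by
  by_contra hcon
  push Not at hcon
  choose f hf using hcon
  obtain ⟨N, hN⟩ := Finite.exists_le f
  obtain ⟨i, hi⟩ := h N
  have h1 : ∀ d M, M + d = N → P i M := by
    intro d
    induction d with
    | zero => intro M hM; rw [Nat.add_zero] at hM; rw [hM]; exact hi
    | succ d ih => intro M hM; exact hP i M (ih (M + 1) (by omega))
  exact hf i (h1 (N - f i) (f i) (by have := hN i; omega))

theorem memC_of_comp {h : ℕ → ℕ} {z : ℕ → Bool} {n : ℕ}
    (hz : ∀ M m, n ≤ m → m ≤ n + M → Comp (dec (h m)) (restr (n + M) z)) : MemC h z := by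
  classical
  refine ⟨n, fun m hm => ?_⟩
  set b := (dec (h m)).sup List.length with hb
  obtain ⟨σ, hσ, h1⟩ := hz (m + b) m hm (by omega)
  refine ⟨σ, hσ, ?_⟩
  have h2 : σ.length ≤ b := Finset.le_sup (f := List.length) hσ
  have h3 : σ <+: restr (n + (m + b)) z := by
    rcases h1 with h1 | h1
    · exact h1
    · have h4 := h1.length_le
      rw [length_restr] at h4
      rw [h1.eq_of_length (by rw [length_restr]; omega)]
  rw [List.prefix_iff_eq_take] at h3
  rw [take_restr (by omega)] at h3
  exact pre_iff.2 h3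

theorem forall2_restr {ι : Type*} (L : List ι) (z : ι → ℕ → Bool) {m M : ℕ} (h : m ≤ M) :
    List.Forall₂ (fun a b : List Bool => a <+: b) (L.map fun i => restr m (z i))
      (L.map fun i => restr M (z i)) := by
  rw [List.forall₂_map_left_iff, List.forall₂_map_right_iff, List.forall₂_same]
  exact fun i _ => restr_prefix h (z i)

/-- the union of the coded sets is a maximal independent set -/
theorem maxi (hS : SafeHyp Safe) (hI : Ind Safe g) (hC : Cov Safe g) (x : ℕ → Bool)
    (hx : ∀ k, ¬ MemC (g k) x) : ∃ Z : List (ℕ → Bool), Z.Nodup ∧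
      (∀ z ∈ Z, (∃ k, MemC (g k) z) ∨ z = x) ∧ ∃ n, ∀ ℓ, ¬ Safe n (Z.map (restr ℓ)) := by
  classical
  obtain ⟨k, j, Y, hY, hd⟩ := hC x
  have hd' : Dep Safe g k Y x := hd.resolve_left (hx k)
  obtain ⟨s, hs, n, hn⟩ := hd'
  -- the finite set of points
  set A : Finset (ℕ → Bool) := insert x (Finset.univ.image Y) with hA
  have hAT : ∀ a ∈ A, (MemC (g k) a) ∨ a = x := by
    intro a ha
    rcases Finset.mem_insert.1 ha with h | h
    · exact Or.inr h
    · obtain ⟨i, _, rfl⟩ := Finset.mem_image.1 h
      exact Or.inl (hY i)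
  let U : ℕ → Finset (List Bool) := fun M => A.image (restr (n + M))
  have hnot : ∀ M, ¬ Psi Safe g s n (n + M) (U M) := fun M => by
    refine hn (n + M) (U M) (fun i => ⟨restr (n + M) (Y i), ?_, pre_restr _ _⟩)
      ⟨restr (n + M) x, ?_, pre_restr _ _⟩
    · exact Finset.mem_image_of_mem _ (Finset.mem_insert_of_mem
        (Finset.mem_image_of_mem _ (Finset.mem_univ i)))
    · exact Finset.mem_image_of_mem _ (Finset.mem_insert_self _ _)
  -- admissible points
  let adm : ℕ → (ℕ → Bool) → Prop := fun M z =>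
    (∃ a ∈ A, restr (n + M) z = restr (n + M) a) ∨ Adm1 g s n (n + M) (restr (n + M) z)
  have hadm : ∀ M z, Comp (U M) (restr (n + M) z) → ∃ a ∈ A, restr (n + M) z = restr (n + M) a := by
    rintro M z ⟨σ, hσ, h1⟩
    obtain ⟨a, ha, rfl⟩ := Finset.mem_image.1 hσ
    refine ⟨a, ha, ?_⟩
    rcases h1 with h1 | h1
    · exact (h1.eq_of_length (by simp)).symm
    · exact h1.eq_of_length (by simp)
  have hadm_anti : ∀ M z, adm (M + 1) z → adm M z := by
    rintro M z (⟨a, ha, h1⟩ | ⟨β, hβ, h1⟩)
    · refine Or.inl ⟨a, ha, ?_⟩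
      rw [restr_eq_iff] at h1 ⊢
      exact fun i hi => h1 i (by omega)
    · refine Or.inr ⟨β, hβ, fun m h2 h3 => ?_⟩
      exact comp_restr_anti (by omega) (h1 m h2 (by omega))
  let V : (r : ℕ) → ℕ → Set (Fin r → ℕ → Bool) := fun r M =>
    {z | (∀ i, adm M (z i)) ∧ (∀ i i', i ≠ i' → restr n (z i) ≠ restr n (z i')) ∧
      ¬ Safe n ((List.finRange r).map fun i => restr (n + M) (z i))}
  have hVanti : ∀ r M, V r (M + 1) ⊆ V r M := by
    rintro r M z ⟨h1, h2, h3⟩
    refine ⟨fun i => hadm_anti M _ (h1 i), h2, fun h4 => h3 ?_⟩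
    exact hS.hext n _ _ (forall2_restr _ z (by omega)) h4
  set R := Fintype.card (Fin n → Bool) with hR
  let P : Fin (R + 1) ⊕ (A × s) → ℕ → Prop := fun i M => match i with
    | Sum.inl r => (V r.1 M).Nonempty
    | Sum.inr ab => ∀ m, n ≤ m → m ≤ n + M → Comp (dec (g ab.2.1 m)) (restr (n + M) ab.1.1)
  have hPanti : ∀ i M, P i (M + 1) → P i M := by
    rintro (r | ab) M h
    · obtain ⟨z, hz⟩ := h
      exact ⟨z, hVanti _ _ hz⟩
    · intro m h1 h2
      exact comp_restr_anti (by omega) (h m h1 (by omega))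
  have hPex : ∀ M, ∃ i, P i M := by
    intro M
    by_contra hcon
    push Not at hcon
    refine hnot M ⟨by omega, fun L hL hp => ?_, fun y hy hc ha => ?_⟩
    · by_contra hsafe
      let z : Fin L.length → ℕ → Bool := fun i l => (L.get i).getD l false
      have hz : ∀ i, restr (n + M) (z i) = L.get i := by
        intro i
        have h1 := (hL (L.get i) (List.get_mem L i)).1
        apply List.ext_getElem (by rw [length_restr, h1])
        intro l h2 h3
        simp only [restr, List.getElem_map, List.getElem_range, z]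
        rw [List.getD_eq_getElem _ _ h3]
      have hdist : ∀ i i', i ≠ i' → restr n (z i) ≠ restr n (z i') := by
        have key : ∀ i i', i < i' → restr n (z i) ≠ restr n (z i') := by
          intro i i' hii
          have h1 := List.pairwise_iff_get.1 hp i i' hii
          rw [← hz i, ← hz i', take_restr (by omega), take_restr (by omega)] at h1
          exact h1
        intro i i' hne
        rcases lt_or_gt_of_ne hne with h | h
        · exact key i i' h
        · exact (key i' i h).symm
      have hcard : L.length ≤ R := by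
        have h1 : Function.Injective fun (i : Fin L.length) (l : Fin n) => z i l := by
          intro i i' h
          by_contra hne
          refine hdist i i' hne (restr_eq_iff.2 fun l hl => ?_)
          exact congrFun h ⟨l, hl⟩
        have := Fintype.card_le_of_injective _ h1
        rw [Fintype.card_fin] at this
        exact this
      refine hcon (Sum.inl ⟨L.length, by omega⟩) ⟨z, fun i => ?_, hdist, ?_⟩
      · have h1 := (hL (L.get i) (List.get_mem L i)).2
        rw [← hz i] at h1
        rcases h1 with h1 | h1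
        · exact Or.inl (hadm M _ h1)
        · exact Or.inr h1
      · have h1 : (List.finRange L.length).map (fun i => restr (n + M) (z i)) = L := by
          apply List.ext_getElem (by simp)
          intro l h2 h3
          simp only [List.getElem_map, List.getElem_finRange]
          rw [hz]
          rfl
        show ¬ Safe n ((List.finRange L.length).map fun i => restr (n + M) (z i))
        rw [h1]
        exact hsafe
    · obtain ⟨σ, hσ, h1⟩ := hc
      obtain ⟨a, haA, rfl⟩ := Finset.mem_image.1 hσ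
      have hya : y = restr (n + M) a := by
        rcases h1 with h1 | h1
        · exact (h1.eq_of_length (by simp [hy])).symm
        · exact h1.eq_of_length (by simp [hy])
      obtain ⟨β, hβ, h2⟩ := ha
      refine hcon (Sum.inr (⟨a, haA⟩, ⟨β, hβ⟩)) fun m h3 h4 => ?_
      rw [← hya]
      exact h2 m h3 h4
  obtain ⟨i, hi⟩ := exists_alt P hPanti hPex
  rcases i with r | ⟨⟨a, ha⟩, ⟨β, hβ⟩⟩
  swap
  · exfalso
    have h1 : MemC (g β) a := memC_of_comp fun M m h2 h3 => hi M m h2 h3
    rcases hAT a ha with h2 | h2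
    · have := disj hI h1 h2
      exact absurd (hs β hβ) (by rw [this]; exact lt_irrefl k)
    · rw [h2] at h1
      exact hx β h1
  have hi' : ∀ M, (V r.1 M).Nonempty := hi
  have hclosed : ∀ M, IsClosed (V r.1 M) := by
    intro M
    let F : (Fin r.1 → ℕ → Bool) → (Fin r.1 → Fin (n + M) → Bool) := fun z i l => z i l
    have hF : Continuous F := by
      refine continuous_pi fun i => continuous_pi fun l => ?_
      exact (continuous_apply _).comp (continuous_apply i)
    have h1 : V r.1 M = F ⁻¹' (F '' V r.1 M) := by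
      refine Set.Subset.antisymm (Set.subset_preimage_image _ _) ?_
      rintro z ⟨z', hz', hzz⟩
      have h2 : ∀ i, ∀ m ≤ n + M, restr m (z' i) = restr m (z i) := by
        intro i m hm
        refine restr_eq_iff.2 fun l hl => ?_
        exact congrFun (congrFun hzz i) ⟨l, by omega⟩
      obtain ⟨h3, h4, h5⟩ := hz'
      refine ⟨fun i => ?_, fun i i' hne => ?_, ?_⟩
      · have h6 := h3 i
        simp only [adm] at h6 ⊢
        rw [← h2 i _ le_rfl]
        exact h6
      · rw [← h2 i n (by omega), ← h2 i' n (by omega)]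
        exact h4 i i' hne
      · have h6 : (fun i => restr (n + M) (z i)) = fun i => restr (n + M) (z' i) := by
          funext i
          exact (h2 i _ le_rfl).symm
        rw [h6]
        exact h5
    rw [h1]
    exact (isClosed_discrete _).preimage hF
  obtain ⟨z, hz⟩ := IsCompact.nonempty_iInter_of_sequence_nonempty_isCompact_isClosed
    (fun M => V r.1 M) (fun M => hVanti _ M) hi' (hclosed 0).isCompact hclosed
  rw [Set.mem_iInter] at hz
  have hinj : Function.Injective z := by
    intro i i' h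
    by_contra hne
    exact (hz 0).2.1 i i' hne (by rw [h])
  refine ⟨(List.finRange r.1).map z, (List.nodup_finRange r.1).map hinj, ?_, n, fun ℓ hsafe => ?_⟩
  · intro z' hz'
    obtain ⟨i, _, rfl⟩ := List.mem_map.1 hz'
    let Q : A ⊕ s → ℕ → Prop := fun c M => match c with
      | Sum.inl a => restr (n + M) (z i) = restr (n + M) a.1
      | Sum.inr β => ∀ m, n ≤ m → m ≤ n + M → Comp (dec (g β.1 m)) (restr (n + M) (z i))
    have hQanti : ∀ c M, Q c (M + 1) → Q c M := by
      rintro (a | β) M h
      · have h' : restr (n + (M + 1)) (z i) = restr (n + (M + 1)) a.1 := h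
        show restr (n + M) (z i) = restr (n + M) a.1
        rw [restr_eq_iff] at h' ⊢
        exact fun l hl => h' l (by omega)
      · intro m h1 h2
        exact comp_restr_anti (by omega) (h m h1 (by omega))
    obtain ⟨c, hc⟩ := exists_alt Q hQanti fun M => by
      rcases (hz M).1 i with ⟨a, ha, h1⟩ | ⟨β, hβ, h1⟩
      · exact ⟨Sum.inl ⟨a, ha⟩, h1⟩
      · exact ⟨Sum.inr ⟨β, hβ⟩, h1⟩
    rcases c with a | β
    · have h1 : z i = a.1 := by
        funext l
        exact restr_eq_iff.1 (hc (l + 1)) l (by omega)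
      rcases hAT a.1 a.2 with h2 | h2
      · left
        rw [h1]
        exact ⟨k, h2⟩
      · right
        rw [h1]
        exact h2
    · left
      exact ⟨β.1, memC_of_comp fun M m h1 h2 => hc M m h1 h2⟩
  · refine (hz ℓ).2.2 ?_
    rw [List.map_map] at hsafe
    exact hS.hext n _ _ (forall2_restr _ z (by omega)) hsafe

end

end Pool.Agent.H504.BP
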