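import Mathlib
import Pool.Agent.H504.BP.Top

/-!
# The transcendence basis

The safety relation for algebraic relations over the rational numbers, and the transcendence
basis of the real numbers given by a maximal independent set.
-/

namespace Pool.Agent.H504.BP

open MvPolynomial Set

universe u

/-- the real number in `[0, 1]` with binary digits `x` -/
noncomputable def rv (x : ℕ → Bool) : ℝ :=
  Real.ofDigits (b := 2) (fun i => if x i then 1 else 0)

theorem continuous_rv : Continuous rv := by
  refine Real.continuous_ofDigits.comp (continuous_pi fun i => ?_)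
  exact (continuous_of_discreteTopology (f := fun b : Bool => if b then (1 : Fin 2) else 0)).comp
    (continuous_apply i)

theorem rv_nonneg (x : ℕ → Bool) : 0 ≤ rv x := Real.ofDigits_nonneg _

theorem rv_le_one (x : ℕ → Bool) : rv x ≤ 1 := Real.ofDigits_le_one _

theorem rv_surj {r : ℝ} (h0 : 0 ≤ r) (h1 : r ≤ 1) : ∃ x, rv x = r := by
  obtain ⟨d, _, hd⟩ := Real.ofDigits_SurjOn (b := 2) (by norm_num) ⟨h0, h1⟩
  refine ⟨fun i => decide (d i = 1), ?_⟩
  rw [← hd, rv]
  congr 1
  funext i
  by_cases h : d i = 1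
  · simp [h]
  · have h2 : d i = 0 := by
      have := (d i).isLt
      ext
      by_contra h3
      apply h
      ext
      simp at h3 ⊢
      omega
    simp [h2]

/-- rational polynomials of degree at most `n` with coefficients of height at most `n` -/
def Small (n : ℕ) (P : MvPolynomial ℕ ℚ) : Prop :=
  P.totalDegree ≤ n ∧ ∀ m, |(P.coeff m).num| ≤ n ∧ (P.coeff m).den ≤ n

/-- a list `L` of strings is safe for `n` if real numbers whose binary digits extend the members
of `L` do not satisfy any nontrivial polynomial relation which is small for `n` -/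
def SafeA (n : ℕ) (L : List (List Bool)) : Prop :=
  ∀ P : MvPolynomial ℕ ℚ, P ≠ 0 → (∀ i ∈ P.vars, i < L.length) → Small n P →
    ∀ z : ℕ → ℕ → Bool, (∀ i < L.length, Pre (L.getD i []) (z i)) →
      aeval (fun i => rv (z i)) P ≠ 0

theorem pre_mono {σ τ : List Bool} {x : ℕ → Bool} (h : σ <+: τ) (hx : Pre τ x) : Pre σ x := by
  rw [pre_iff] at hx ⊢
  have h1 := List.prefix_iff_eq_take.1 h
  rw [hx, take_restr h.length_le] at h1
  exact h1

theorem safeHyp : SafeHyp SafeA where
  hanti n m L hnm h P hP hv hs z hz := by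
    refine h P hP hv ⟨hs.1.trans hnm, fun k => ⟨(hs.2 k).1.trans ?_, (hs.2 k).2.trans hnm⟩⟩ z hz
    exact_mod_cast hnm
  hnil n P hP hv _ z _ := by
    have h1 : P.vars = ∅ := by
      rw [Finset.eq_empty_iff_forall_notMem]
      intro i hi
      exact absurd (hv i hi) (by simp)
    rw [vars_eq_empty_iff_eq_C] at h1
    rw [h1] at hP ⊢
    intro h2
    apply hP
    rw [aeval_C] at h2
    have h3 : P.coeff 0 = 0 := by
      have : ((P.coeff 0 : ℚ) : ℝ) = 0 := h2
      exact_mod_cast this
    rw [h3, C_0]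
  hext n L L' hLL h P hP hv hs z hz := by
    have hlen := hLL.length_eq
    refine h P hP (fun i hi => by rw [hlen]; exact hv i hi) hs z fun i hi => ?_
    have h1 : i < L'.length := by rw [← hlen]; exact hi
    have h2 := hz i h1
    rw [List.getD_eq_getElem _ _ h1] at h2
    rw [List.getD_eq_getElem _ _ hi]
    exact pre_mono (List.forall₂_iff_get.1 hLL |>.2 i hi h1) h2

/-- finitely many small polynomials in finitely many variables -/
theorem finite_small (k n : ℕ) :
    {P : MvPolynomial ℕ ℚ | (∀ i ∈ P.vars, i < k) ∧ Small n P}.Finite := by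
  classical
  let S : Finset (ℕ →₀ ℕ) := (Finset.range k).finsupp fun _ => Finset.range (n + 1)
  let Q : Set ℚ := {q | |q.num| ≤ n ∧ q.den ≤ n}
  have hQ : Q.Finite := by
    have h1 : Q ⊆ (fun p : ℤ × ℕ => (p.1 : ℚ) / p.2) '' (Set.Icc (-(n : ℤ)) n ×ˢ Set.Iic n) := by
      intro q hq
      refine ⟨(q.num, q.den), ⟨abs_le.1 hq.1, hq.2⟩, Rat.num_div_den q⟩
    exact ((Set.finite_Icc _ _).prod (Set.finite_Iic _)).image _ |>.subset h1
  have hQ' : Finite Q := hQ
  let f : {P : MvPolynomial ℕ ℚ | (∀ i ∈ P.vars, i < k) ∧ Small n P} → (S → Q) :=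
    fun P m => ⟨P.1.coeff m.1, P.2.2.2 m.1⟩
  have hf : Function.Injective f := by
    intro P P' h
    apply Subtype.ext
    ext m
    by_cases hm : m ∈ S
    · exact congrArg Subtype.val (congrFun h ⟨m, hm⟩)
    · have key : ∀ R : {P : MvPolynomial ℕ ℚ | (∀ i ∈ P.vars, i < k) ∧ Small n P},
          R.1.coeff m = 0 := by
        intro R
        by_contra h0
        apply hm
        rw [Finset.mem_finsupp_iff]
        have h1 : m ∈ R.1.support := mem_support_iff.2 h0
        refine ⟨fun i hi => ?_, fun i _ => ?_⟩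
        · exact Finset.mem_range.2 (R.2.1 i (by
            rw [mem_vars_iff_mem_support]
            exact ⟨m, h1, hi⟩))
        · rw [Finset.mem_range]
          have h2 := (le_totalDegree h1).trans R.2.2.1
          have h3 : m i ≤ m.sum fun _ e => e := by
            by_cases h4 : i ∈ m.support
            · exact Finset.single_le_sum (f := fun j => m j) (fun _ _ => Nat.zero_le _) h4
            · rw [Finsupp.notMem_support_iff.1 h4]
              exact Nat.zero_le _
          omega
      rw [key P, key P']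
  exact Set.finite_coe_iff.1 (Finite.of_injective f hf)

theorem exists_small (P : MvPolynomial ℕ ℚ) : ∃ n, Small n P := by
  classical
  refine ⟨P.totalDegree + 1 + P.support.sup (fun m => (P.coeff m).num.natAbs + (P.coeff m).den),
    by omega, fun m => ?_⟩
  by_cases hm : m ∈ P.support
  · have h1 := Finset.le_sup (f := fun m => (P.coeff m).num.natAbs + (P.coeff m).den) hm
    constructor
    · rw [Int.abs_eq_natAbs]
      exact_mod_cast (by omega)
    · omega
  · rw [notMem_support_iff.1 hm]
    simp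
    omega

theorem aeval_congr_vars {σ : Type*} {P : MvPolynomial σ ℚ} {c c' : σ → ℝ}
    (h : ∀ i ∈ P.vars, c i = c' i) : aeval c P = aeval c' P :=
  eval₂Hom_congr' rfl (fun i hi _ => h i hi) rfl

/-- in the limit, unsafe lists give algebraic relations -/
theorem exists_relation {Z : List (ℕ → Bool)} {n : ℕ} (h : ∀ ℓ, ¬ SafeA n (Z.map (restr ℓ))) :
    ∃ P : MvPolynomial ℕ ℚ, P ≠ 0 ∧ (∀ i ∈ P.vars, i < Z.length) ∧
      aeval (fun i => rv (Z.getD i fun _ => false)) P = 0 := by
  classical
  have hfin : Finite {P : MvPolynomial ℕ ℚ | (∀ i ∈ P.vars, i < Z.length) ∧ Small n P} :=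
    finite_small Z.length n
  let Q : {P : MvPolynomial ℕ ℚ | (∀ i ∈ P.vars, i < Z.length) ∧ Small n P} → ℕ → Prop :=
    fun P ℓ => P.1 ≠ 0 ∧ ∃ z : ℕ → ℕ → Bool,
      (∀ i < Z.length, restr ℓ (z i) = restr ℓ (Z.getD i fun _ => false)) ∧
        aeval (fun i => rv (z i)) P.1 = 0
  obtain ⟨P, hP⟩ := exists_alt Q (by
    rintro P ℓ ⟨h0, z, h1, h2⟩
    refine ⟨h0, z, fun i hi => ?_, h2⟩
    have := h1 i hi
    rw [restr_eq_iff] at this ⊢
    exact fun l hl => this l (by omega)) (by
    intro ℓ
    have h1 := h ℓ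
    unfold SafeA at h1
    push Not at h1
    obtain ⟨P, h2, h3, h4, z, h5, h6⟩ := h1
    refine ⟨⟨P, ?_, h4⟩, h2, z, fun i hi => ?_, h6⟩
    · simpa using h3
    · have h7 := h5 i (by simpa using hi)
      rw [List.getD_eq_getElem _ _ (by simpa using hi), List.getElem_map, pre_iff,
        length_restr] at h7
      rw [List.getD_eq_getElem _ _ hi]
      exact h7.symm)
  refine ⟨P.1, (hP 0).1, P.2.1, ?_⟩
  choose z hz1 hz2 using fun ℓ => (hP ℓ).2
  let z' : ℕ → ℕ → ℕ → Bool := fun ℓ i =>
    if i < Z.length then z ℓ i else Z.getD i fun _ => false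
  have h1 : ∀ ℓ, aeval (fun i => rv (z' ℓ i)) P.1 = 0 := fun ℓ => by
    rw [← hz2 ℓ]
    refine aeval_congr_vars fun i hi => ?_
    simp only [z']
    rw [if_pos (P.2.1 i hi)]
  have h2 : Filter.Tendsto z' Filter.atTop (nhds fun i => Z.getD i fun _ => false) := by
    rw [tendsto_pi_nhds]
    intro i
    rw [tendsto_pi_nhds]
    intro l
    refine tendsto_const_nhds.congr' ?_
    filter_upwards [Filter.eventually_gt_atTop l] with ℓ hℓ
    simp only [z']
    by_cases hi : i < Z.length
    · rw [if_pos hi]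
      exact (restr_eq_iff.1 (hz1 ℓ i hi) l hℓ).symm
    · rw [if_neg hi]
  have hcont : Continuous fun c : ℕ → ℕ → Bool => aeval (fun i => rv (c i)) P.1 := by
    have h3 : Continuous fun c : ℕ → ℝ => aeval c P.1 := by
      have h4 : (fun c : ℕ → ℝ => aeval c P.1) =
          fun c => eval c (P.1.map (algebraMap ℚ ℝ)) := by
        funext c
        rw [eval_map]
        rfl
      rw [h4]
      exact continuous_eval _
    exact h3.comp (continuous_pi fun i => continuous_rv.comp (continuous_apply i))
  have h3 := (hcont.tendsto _).comp h2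
  have h4 : ((fun c : ℕ → ℕ → Bool => aeval (fun i => rv (c i)) P.1) ∘ z') = fun _ => 0 := by
    funext ℓ
    exact h1 ℓ
  rw [h4] at h3
  exact (tendsto_nhds_unique h3 tendsto_const_nhds)

section

variable {K : Type u} [LinearOrder K] {g : K → ℕ → ℕ}

/-- the union of the coded sets -/
def TT (g : K → ℕ → ℕ) : Set (ℕ → Bool) := {x | ∃ k, MemC (g k) x}

theorem algInd (hI : Ind SafeA g) : AlgebraicIndepOn ℚ rv (TT g) := by
  classical
  unfold AlgebraicIndepOn
  rw [algebraicIndependent_iff]
  intro p hp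
  obtain ⟨n, f, hf, q, rfl⟩ := exists_fin_rename p
  by_contra hne
  have hq : q ≠ 0 := fun h => hne (by rw [h, map_zero])
  set P : MvPolynomial ℕ ℚ := rename Fin.val q with hP
  have hP0 : P ≠ 0 := fun h => hq (rename_injective _ Fin.val_injective (by rw [← hP, h, map_zero]))
  obtain ⟨N, hN⟩ := exists_small P
  set Z : List (ℕ → Bool) := List.ofFn fun i => (f i).1 with hZ
  have hZn : Z.Nodup := by
    rw [hZ, List.nodup_ofFn]
    exact Subtype.val_injective.comp hf
  obtain ⟨ℓ, hℓ⟩ := indep safeHyp hI Z hZn (fun z hz => by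
    rw [hZ, List.mem_ofFn] at hz
    obtain ⟨i, rfl⟩ := hz
    exact (f i).2) N
  refine hℓ P hP0 (fun i hi => ?_) hN (fun i => Z.getD i fun _ => false) (fun i hi => ?_) ?_
  · obtain ⟨j, _, rfl⟩ := mem_vars_rename _ _ hi
    simp [hZ]
  · have hi' : i < Z.length := by simpa using hi
    rw [List.getD_eq_getElem _ _ hi, List.getElem_map, List.getD_eq_getElem _ _ hi']
    exact pre_restr _ _
  · rw [hP, aeval_rename]
    rw [aeval_rename] at hp
    rw [← hp]
    congr 2
    funext i
    simp only [Function.comp]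
    rw [List.getD_eq_getElem _ _ (by simp [hZ])]
    simp [hZ]

theorem isAlg (hI : Ind SafeA g) (hC : Cov SafeA g) (x : ℕ → Bool) :
    IsAlgebraic (Algebra.adjoin ℚ (rv '' TT g)) (rv x) := by
  classical
  by_cases hx : x ∈ TT g
  · exact isAlgebraic_algebraMap (⟨rv x, Algebra.subset_adjoin ⟨x, hx, rfl⟩⟩ :
      Algebra.adjoin ℚ (rv '' TT g))
  obtain ⟨Z, hZn, hZ, n, hn⟩ := maxi safeHyp hI hC x (fun k hk => hx ⟨k, hk⟩)
  obtain ⟨P, hP0, hPv, hP⟩ := exists_relation hn
  by_contra hcon
  have h1 : AlgebraicIndepOn ℚ rv (insert x (TT g)) :=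
    (AlgebraicIndepOn.insert_iff hx).2 ⟨algInd hI, hcon⟩
  unfold AlgebraicIndepOn at h1
  rw [algebraicIndependent_iff] at h1
  obtain ⟨q, hq⟩ := exists_rename_eq_of_vars_subset_range P (Fin.val : Fin Z.length → ℕ)
    Fin.val_injective (fun i hi => ⟨⟨i, hPv i hi⟩, rfl⟩)
  let f : Fin Z.length → ↥(insert x (TT g)) := fun i => ⟨Z.get i, by
    rcases hZ _ (List.get_mem Z i) with h | h
    · exact Or.inr h
    · exact Or.inl h⟩
  have hf : Function.Injective f := fun i j hij =>
    List.nodup_iff_injective_get.1 hZn (congrArg Subtype.val hij)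
  have h2 := h1 (rename f q) (by
    rw [aeval_rename, ← hP, ← hq, aeval_rename]
    congr 2
    funext i
    simp only [Function.comp, f]
    rw [List.getD_eq_getElem _ _ i.2]
    rfl)
  have h3 : q = 0 := rename_injective f hf (by rw [h2, map_zero])
  apply hP0
  rw [← hq, h3, map_zero]

/-- the transcendence basis -/
theorem transBasis (hI : Ind SafeA g) (hC : Cov SafeA g) :
    IsTranscendenceBasis ℚ fun t : TT g => rv t := by
  rw [isTranscendenceBasis_iff_algebraicIndependent_isAlgebraic]
  refine ⟨algInd hI, ⟨fun r => ?_⟩⟩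
  have hr : range (fun t : TT g => rv t) = rv '' TT g := by
    rw [Set.image_eq_range]
  rw [hr]
  obtain ⟨x, hx⟩ := rv_surj (Int.fract_nonneg r) (Int.fract_lt_one r).le
  have h1 : r = (⌊r⌋ : ℝ) + rv x := by
    rw [hx]
    exact (Int.floor_add_fract r).symm
  rw [h1]
  refine IsAlgebraic.add ?_ (isAlg hI hC x)
  exact isAlgebraic_intCast ⌊r⌋

end

end Pool.Agent.H504.BP
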