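import Mathlib

/-!
# Lemmas on sigma-compact sets
-/

namespace Pool.Agent.H504.BP

open Set

section

variable {X Y : Type*} [TopologicalSpace X] [TopologicalSpace Y]

theorem sc_inter [T2Space X] {s t : Set X} (hs : IsSigmaCompact s) (ht : IsSigmaCompact t) :
    IsSigmaCompact (s ∩ t) := by
  obtain ⟨F, hF, rfl⟩ := hs
  obtain ⟨G, hG, rfl⟩ := ht
  rw [iUnion_inter_iUnion]
  exact isSigmaCompact_iUnion _ fun i => isSigmaCompact_iUnion _ fun j =>
    ((hF i).inter (hG j)).isSigmaCompact

theorem sc_closed [SigmaCompactSpace X] {s : Set X} (hs : IsClosed s) : IsSigmaCompact s :=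
  isSigmaCompact_univ.of_isClosed_subset hs (subset_univ _)

theorem sc_open {X : Type*} [PseudoEMetricSpace X] [SigmaCompactSpace X] {s : Set X}
    (hs : IsOpen s) : IsSigmaCompact s := by
  obtain ⟨F, h1, _, rfl, _⟩ := hs.exists_iUnion_isClosed
  exact isSigmaCompact_iUnion _ fun i => sc_closed (h1 i)

theorem sc_union {s t : Set X} (hs : IsSigmaCompact s) (ht : IsSigmaCompact t) :
    IsSigmaCompact (s ∪ t) := by
  rw [union_eq_iUnion]
  exact isSigmaCompact_iUnion _ fun b => by cases b <;> assumption

theorem sc_iInter [T2Space X] [SigmaCompactSpace X] {ι : Type*} [Finite ι] {s : ι → Set X}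
    (h : ∀ i, IsSigmaCompact (s i)) : IsSigmaCompact (⋂ i, s i) := by
  classical
  have key : ∀ F : Set ι, F.Finite → IsSigmaCompact (⋂ i ∈ F, s i) := by
    intro F hF
    induction F, hF using Set.Finite.induction_on with
    | empty => simpa using isSigmaCompact_univ
    | @insert a F _ _ ih =>
      rw [biInter_insert]
      exact sc_inter (h a) ih
  have h1 := key univ finite_univ
  simpa using h1

theorem sc_preimage [T2Space Y] [SigmaCompactSpace X] {f : X → Y} (hf : Continuous f) {s : Set Y}
    (hs : IsSigmaCompact s) : IsSigmaCompact (f ⁻¹' s) := by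
  obtain ⟨F, hF, rfl⟩ := hs
  rw [preimage_iUnion]
  exact isSigmaCompact_iUnion _ fun i => sc_closed ((hF i).isClosed.preimage hf)

theorem sc_measurable [T2Space X] [MeasurableSpace X] [BorelSpace X] {s : Set X}
    (hs : IsSigmaCompact s) : MeasurableSet s := by
  obtain ⟨F, hF, rfl⟩ := hs
  exact MeasurableSet.iUnion fun i => (hF i).isClosed.measurableSet

end

end Pool.Agent.H504.BP
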