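import Mathlib
import Pool.Agent.H135R2.VS.Der
import Pool.Agent.H504.BP.Sc

/-!
# Labels of real numbers with respect to a transcendence basis partitioned into blocks
-/

namespace Pool.Agent.H504.BP

open MvPolynomial Set Pool.Agent.H135R2.VS

section

variable {τ : Type*} {x : τ → ℝ}

/-- the partial derivatives with respect to a transcendence basis -/
noncomputable def pd (hx : IsTranscendenceBasis ℚ x) (t : τ) : Derivation ℚ ℝ ℝ := by
  classical
  exact (exists_der_basis hx (fun t' => if t' = t then 1 else 0)).choose

theorem pd_same (hx : IsTranscendenceBasis ℚ x) (t : τ) : pd hx t (x t) = 1 := by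
  classical
  have := (exists_der_basis hx (fun t' => if t' = t then 1 else 0)).choose_spec t
  rw [if_pos rfl] at this
  exact this

theorem pd_ne (hx : IsTranscendenceBasis ℚ x) {t t' : τ} (h : t' ≠ t) : pd hx t (x t') = 0 := by
  classical
  have := (exists_der_basis hx (fun t' => if t' = t then 1 else 0)).choose_spec t'
  rw [if_neg h] at this
  exact this

/-- the chain rule -/
theorem chain {σ : Type*} [Fintype σ] (D : Derivation ℚ ℝ ℝ) (c : σ → ℝ) (q : MvPolynomial σ ℚ) :
    D (aeval c q) = ∑ i, aeval c (pderiv i q) * D (c i) := by
  classical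
  induction q using MvPolynomial.induction_on with
  | C a =>
    rw [aeval_C, D.map_algebraMap]
    simp
  | add p q hp hq => simp [hp, hq, add_mul, Finset.sum_add_distrib]
  | mul_X p j hp =>
    rw [map_mul, aeval_X, Derivation.leibniz, hp]
    simp only [Derivation.leibniz, map_add, smul_eq_mul, map_mul, aeval_X, pderiv_X, add_mul,
      Finset.sum_add_distrib, Pi.single_apply, apply_ite (aeval c), map_zero, mul_ite,
      mul_one, mul_zero, ite_mul, zero_mul, Finset.mul_sum]
    simp [Finset.sum_ite_eq, mul_assoc]

/-- an algebraic relation for a real number `r` over a part of an algebraically independent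
family -/
theorem exists_rel (hx : AlgebraicIndependent ℚ x) (S : Set τ) (r : ℝ)
    (hr : ¬ AlgebraicIndependent ℚ fun o : Option S => o.elim r fun s => x s) :
    ∃ (n : ℕ) (s : Fin n → τ) (q : MvPolynomial (Option (Fin n)) ℚ),
      Function.Injective s ∧ (∀ i, s i ∈ S) ∧
      aeval (fun o : Option (Fin n) => o.elim r fun i => x (s i)) q = 0 ∧
      aeval (fun o : Option (Fin n) => o.elim r fun i => x (s i)) (pderiv none q) ≠ 0 := by
  classical
  set y : Option S → ℝ := fun o => o.elim r fun s => x s with hy
  rw [algebraicIndependent_iff] at hr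
  push Not at hr
  have hex : ∃ d : ℕ, ∃ p : MvPolynomial (Option S) ℚ, aeval y p = 0 ∧ p ≠ 0 ∧
      p.totalDegree = d := by
    obtain ⟨p, h1, h2⟩ := hr
    exact ⟨_, p, h1, h2, rfl⟩
  obtain ⟨p, hp0, hpne, hpd⟩ := Nat.find_spec hex
  have hmin : ∀ p' : MvPolynomial (Option S) ℚ, aeval y p' = 0 → p' ≠ 0 →
      p.totalDegree ≤ p'.totalDegree := by
    intro p' h1 h2
    rw [hpd]
    exact Nat.find_min' hex ⟨p', h1, h2, rfl⟩
  -- the derivative does not vanish
  have hd : aeval y (pderiv none p) ≠ 0 := by
    intro h0
    by_cases hz : pderiv none p = 0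
    · -- the variable `none` does not occur
      have hv : none ∉ p.vars := by
        intro hv
        rw [mem_vars_iff_mem_support] at hv
        obtain ⟨m, hm, hmn⟩ := hv
        rw [Finsupp.mem_support_iff] at hmn
        have h1 : m = (m - Finsupp.single none 1) + Finsupp.single none 1 := by
          rw [tsub_add_cancel_of_le]
          rw [Finsupp.single_le_iff]
          omega
        have h2 := coeff_pderiv (i := none) p (m - Finsupp.single none 1)
        rw [hz, coeff_zero, ← h1] at h2
        rcases mul_eq_zero.1 h2.symm with h3 | h3
        · exact mem_support_iff.1 hm h3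
        · have : ((m - Finsupp.single none 1 : Option S →₀ ℕ) none : ℚ) + 1 ≠ 0 :=
            Nat.cast_add_one_ne_zero _
          exact this h3
      obtain ⟨q, hq⟩ := exists_rename_eq_of_vars_subset_range p (some : S → Option S)
        (Option.some_injective _) (fun o ho => by
          rcases o with _ | s
          · exact absurd ho hv
          · exact ⟨s, rfl⟩)
      have h1 : AlgebraicIndependent ℚ fun s : S => x s :=
        hx.comp _ Subtype.val_injective
      rw [algebraicIndependent_iff] at h1
      have h2 : q = 0 := h1 q (by
        rw [← hq, aeval_rename] at hp0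
        exact hp0)
      apply hpne
      rw [← hq, h2, map_zero]
    · have h1 := hmin _ h0 hz
      have h2 : (pderiv none p).totalDegree + 1 ≤ p.totalDegree := by
        obtain ⟨m, hm, hmd⟩ : ∃ m ∈ (pderiv none p).support,
            (pderiv none p).totalDegree = m.sum fun _ e => e :=
          Finset.exists_mem_eq_sup _ (by rwa [Finset.nonempty_iff_ne_empty, Ne,
            MvPolynomial.support_eq_empty]) _
        rw [mem_support_iff, coeff_pderiv] at hm
        have h1 : m + Finsupp.single none 1 ∈ p.support := by
          rw [mem_support_iff]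
          intro h2
          rw [h2, zero_mul] at hm
          exact hm rfl
        have h2 := le_totalDegree h1
        rw [Finsupp.sum_add_index' (fun _ => rfl) (fun _ _ _ => rfl),
          Finsupp.sum_single_index rfl] at h2
        omega
      omega
  -- finitely many variables
  let F : Finset S := (p.vars.preimage some (Option.some_injective _).injOn)
  let s' : Fin F.card → S := fun i => (F.equivFin.symm i).1
  have hs' : Function.Injective s' := fun i j h =>
    F.equivFin.symm.injective (Subtype.ext h)
  obtain ⟨q, hq⟩ := exists_rename_eq_of_vars_subset_range p (Option.map s')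
    (Option.map_injective hs') (fun o ho => by
      rcases o with _ | s
      · exact ⟨none, rfl⟩
      · have hs : s ∈ F := Finset.mem_preimage.2 ho
        refine ⟨some (F.equivFin ⟨s, hs⟩), ?_⟩
        simp [s'])
  have hcomp : y ∘ Option.map s' = fun o : Option (Fin F.card) => o.elim r fun i => x (s' i) := by
    funext o
    rcases o with _ | i <;> rfl
  refine ⟨F.card, fun i => (s' i).1, q, fun i j h => hs' (Subtype.ext h), fun i => (s' i).2,
    ?_, ?_⟩
  · rw [← hq, aeval_rename, hcomp] at hp0
    exact hp0
  · have h1 : pderiv none p = rename (Option.map s') (pderiv none q) := by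
      rw [← hq]
      exact pderiv_rename (Option.map_injective hs') none q
    rw [h1, aeval_rename, hcomp] at hd
    exact hd

variable (hx : IsTranscendenceBasis ℚ x)

/-- the derivative of a number with an algebraic relation -/
theorem der_rel {n : ℕ} {c : Option (Fin n) → ℝ} {q : MvPolynomial (Option (Fin n)) ℚ}
    (h0 : aeval c q = 0) (D : Derivation ℚ ℝ ℝ) :
    aeval c (pderiv none q) * D (c none) = - ∑ i, aeval c (pderiv (some i) q) * D (c (some i)) := by
  have h := chain D c q
  rw [h0, map_zero, Fintype.sum_option] at h
  linarith

include hx in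
theorem pd_rel_some {n : ℕ} {r : ℝ} {s : Fin n → τ} (hs : Function.Injective s)
    {q : MvPolynomial (Option (Fin n)) ℚ}
    (h0 : aeval (fun o : Option (Fin n) => o.elim r fun i => x (s i)) q = 0) (i : Fin n) :
    aeval (fun o : Option (Fin n) => o.elim r fun i => x (s i)) (pderiv none q) *
      pd hx (s i) r =
    - aeval (fun o : Option (Fin n) => o.elim r fun i => x (s i)) (pderiv (some i) q) := by
  have h := der_rel h0 (pd hx (s i))
  simp only [Option.elim] at h
  rw [Finset.sum_eq_single i, pd_same, mul_one] at h
  · exact h
  · intro j _ hj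
    rw [pd_ne hx (fun h => hj (hs h)), mul_zero]
  · intro h
    exact absurd (Finset.mem_univ i) h

include hx in
theorem pd_rel_none {n : ℕ} {r : ℝ} {s : Fin n → τ}
    {q : MvPolynomial (Option (Fin n)) ℚ}
    (h0 : aeval (fun o : Option (Fin n) => o.elim r fun i => x (s i)) q = 0)
    (h1 : aeval (fun o : Option (Fin n) => o.elim r fun i => x (s i)) (pderiv none q) ≠ 0)
    {t : τ} (ht : ∀ i, s i ≠ t) : pd hx t r = 0 := by
  have h := der_rel h0 (pd hx t)
  simp only [Option.elim] at h
  rw [Finset.sum_eq_zero (fun i _ => by rw [pd_ne hx (ht i), mul_zero]), neg_zero] at h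
  rcases mul_eq_zero.1 h with h2 | h2
  · exact absurd h2 h1
  · exact h2

include hx in
/-- every real number has a relation over the basis -/
theorem not_algInd_univ (r : ℝ) :
    ¬ AlgebraicIndependent ℚ fun o : Option (univ : Set τ) => o.elim r fun s => x s := by
  intro h
  have h1 : AlgebraicIndependent ℚ fun o : Option τ => o.elim r x := by
    have h2 := h.comp (Option.map fun t : τ => (⟨t, mem_univ t⟩ : (univ : Set τ)))
      (Option.map_injective fun a b hab => congrArg Subtype.val hab)
    convert h2 using 1
    funext o
    rcases o with _ | t <;> rfl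
  exact (hx.1.option_iff_transcendental r).1 h1 (hx.isAlgebraic.isAlgebraic r)

end

end Pool.Agent.H504.BP
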