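import Mathlib
import Pool.Agent.H504.BP.Alg2

/-!
# The classes of positive real numbers
-/

namespace Pool.Agent.H504.BP

open MvPolynomial Set Pool.Agent.H135R2.VS

section

variable {τ : Type*} {x : τ → ℝ} (hx : IsTranscendenceBasis ℚ x)

include hx in
/-- every real number has a relation over its support -/
theorem rel_supp (r : ℝ) : ∃ (n : ℕ) (s : Fin n → τ) (q : MvPolynomial (Option (Fin n)) ℚ),
    Function.Injective s ∧ (∀ i, pd hx (s i) r ≠ 0) ∧
    aeval (fun o : Option (Fin n) => o.elim r fun i => x (s i)) q = 0 ∧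
    aeval (fun o : Option (Fin n) => o.elim r fun i => x (s i)) (pderiv none q) ≠ 0 := by
  refine exists_rel hx.1 {t | pd hx t r ≠ 0} r fun hind => ?_
  obtain ⟨n, s, q, hs, _, h0, h1⟩ := exists_rel hx.1 univ r (not_algInd_univ hx r)
  obtain ⟨D, hD⟩ := exists_der hind (fun o => o.elim 1 fun _ => 0)
  have hDr : D r = 1 := hD none
  have h2 := der_rel h0 D
  simp only [Option.elim] at h2
  rw [hDr, mul_one, Finset.sum_eq_zero, neg_zero] at h2
  · exact h1 h2
  · intro i _
    by_cases h3 : pd hx (s i) r = 0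
    · have h4 := pd_rel_some hx hs h0 i
      rw [h3, mul_zero] at h4
      have h5 : aeval (fun o : Option (Fin n) => o.elim r fun i => x (s i))
        (pderiv (some i) q) = 0 := by linarith
      exact mul_eq_zero_of_left h5 _
    · have h4 : D (x (s i)) = 0 := hD (some ⟨s i, h3⟩)
      rw [h4, mul_zero]

theorem finite_supp (r : ℝ) : {t | pd hx t r ≠ 0}.Finite := by
  obtain ⟨n, s, q, hs, _, h0, h1⟩ := rel_supp hx r
  refine (finite_range s).subset fun t ht => ?_
  by_contra hcon
  exact ht (pd_rel_none hx h0 h1 fun i hi => hcon ⟨i, hi⟩)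

end

section

variable {τ K : Type*}

/-- the leading value of `d` on the block `β` is positive -/
def LPd (x : τ → ℝ) (blk : τ → K) (β : K) (d : τ → ℝ) : Prop :=
  ∃ t, blk t = β ∧ 0 < d t ∧ ∀ t', blk t' = β → x t < x t' → d t' = 0

variable {x : τ → ℝ} {blk : τ → K} {β : K} {d d' : τ → ℝ}

theorem LPd.comb (hinj : Function.Injective x) (h : LPd x blk β d) (h' : LPd x blk β d') {u v : ℝ}
    (hu : 0 < u) (hv : 0 < v) : LPd x blk β fun t => u * d t + v * d' t := by
  obtain ⟨t, h1, h2, h3⟩ := h
  obtain ⟨t', h1', h2', h3'⟩ := h'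
  rcases lt_trichotomy (x t) (x t') with hlt | heq | hlt
  · refine ⟨t', h1', ?_, fun t'' h4 h5 => ?_⟩
    · simp only [h3 t' h1' hlt]
      nlinarith [mul_pos hv h2']
    · simp only [h3 t'' h4 (hlt.trans h5), h3' t'' h4 h5]
      ring
  · obtain rfl := hinj heq
    refine ⟨t, h1, ?_, fun t'' h4 h5 => ?_⟩
    · simp only
      nlinarith [mul_pos hv h2', mul_pos hu h2]
    · simp only [h3 t'' h4 h5, h3' t'' h4 h5]
      ring
  · refine ⟨t, h1, ?_, fun t'' h4 h5 => ?_⟩
    · simp only [h3' t h1 hlt]
      nlinarith [mul_pos hu h2]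
    · simp only [h3 t'' h4 h5, h3' t'' h4 (hlt.trans h5)]
      ring

theorem LPd.excl (hinj : Function.Injective x) (h : LPd x blk β d)
    (h' : LPd x blk β fun t => - d t) : False := by
  obtain ⟨t, h1, h2, h3⟩ := h
  obtain ⟨t', h1', h2', h3'⟩ := h'
  rcases lt_trichotomy (x t) (x t') with hlt | heq | hlt
  · have h4 := h3 t' h1' hlt
    simp only at h2'
    linarith
  · obtain rfl := hinj heq
    simp only at h2'
    linarith
  · have := h3' t h1 hlt
    simp only at this
    linarith

theorem LPd.tri (hfin : {t | d t ≠ 0}.Finite) {t : τ}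
    (ht : blk t = β) (hdt : d t ≠ 0) : LPd x blk β d ∨ LPd x blk β fun t => - d t := by
  have h1 : ({t | d t ≠ 0} ∩ {t | blk t = β}).Finite := hfin.inter_of_left _
  obtain ⟨m, ⟨hm1, hm2⟩, hm⟩ := h1.exists_maximalFor x _ ⟨t, hdt, ht⟩
  have h2 : ∀ t', blk t' = β → x m < x t' → d t' = 0 := by
    intro t' h3 h4
    by_contra h5
    exact absurd (hm ⟨h5, h3⟩ h4.le) (not_le.2 h4)
  rcases lt_or_gt_of_ne hm1 with h3 | h3
  · right
    exact ⟨m, hm2, by simpa using h3, fun t' h4 h5 => by simpa using h2 t' h4 h5⟩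
  · left
    exact ⟨m, hm2, h3, h2⟩

end

section

variable {τ K : Type*} {x : τ → ℝ} (hx : IsTranscendenceBasis ℚ x) (blk : τ → K)

/-- the class of positive real numbers with label `(a, b)` -/
def cls (a b : Finset K) : Set ℝ :=
  {r | 0 < r ∧ ∀ β, (β ∈ a ↔ LPd x blk β fun t => pd hx t r) ∧
    (β ∈ b ↔ LPd x blk β fun t => - pd hx t r)}

variable {hx blk}

theorem cls_zero {a b : Finset K} {r : ℝ} (hr : r ∈ cls hx blk a b) {t : τ} (h1 : blk t ∉ a)
    (h2 : blk t ∉ b) : pd hx t r = 0 := by
  by_contra h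
  rcases LPd.tri (x := x) (blk := blk) (finite_supp hx r) rfl h with h3 | h3
  · exact h1 ((hr.2 _).1.2 h3)
  · exact h2 ((hr.2 _).2.2 h3)

theorem cls_comb {a b : Finset K} {r r' R u v : ℝ} (hr : r ∈ cls hx blk a b)
    (hr' : r' ∈ cls hx blk a b) (hu : 0 < u) (hv : 0 < v) (hR : 0 < R)
    (h : ∀ t, pd hx t R = u * pd hx t r + v * pd hx t r') : R ∈ cls hx blk a b := by
  have hinj : Function.Injective x := hx.1.injective
  have h1 : ∀ β ∈ a, LPd x blk β fun t => pd hx t R := by
    intro β hβ
    have := ((hr.2 β).1.1 hβ).comb hinj ((hr'.2 β).1.1 hβ) hu hv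
    simp only [← h] at this
    exact this
  have h2 : ∀ β ∈ b, LPd x blk β fun t => - pd hx t R := by
    intro β hβ
    have := ((hr.2 β).2.1 hβ).comb hinj ((hr'.2 β).2.1 hβ) hu hv
    have h3 : (fun t => - pd hx t R) = fun t => u * -(pd hx t r) + v * -(pd hx t r') := by
      funext t
      rw [h]
      ring
    rw [h3]
    exact this
  have h3 : ∀ t, blk t ∉ a → blk t ∉ b → pd hx t R = 0 := by
    intro t h4 h5
    rw [h, cls_zero hr h4 h5, cls_zero hr' h4 h5]
    ring
  refine ⟨hR, fun β => ⟨⟨h1 β, fun h4 => ?_⟩, ⟨h2 β, fun h4 => ?_⟩⟩⟩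
  · by_contra h5
    by_cases h6 : β ∈ b
    · exact h4.excl hinj (h2 β h6)
    · obtain ⟨t, rfl, h7, _⟩ := h4
      have h8 := h3 t h5 h6
      simp only at h7
      linarith
  · by_contra h5
    by_cases h6 : β ∈ a
    · exact (h1 β h6).excl hinj h4
    · obtain ⟨t, rfl, h7, _⟩ := h4
      have h8 := h3 t h6 h5
      simp only at h7
      linarith

theorem cls_add {a b : Finset K} {r r' : ℝ} (hr : r ∈ cls hx blk a b)
    (hr' : r' ∈ cls hx blk a b) : r + r' ∈ cls hx blk a b :=
  cls_comb hr hr' one_pos one_pos (add_pos hr.1 hr'.1) fun t => by rw [map_add]; ring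

theorem cls_mul {a b : Finset K} {r r' : ℝ} (hr : r ∈ cls hx blk a b)
    (hr' : r' ∈ cls hx blk a b) : r * r' ∈ cls hx blk a b :=
  cls_comb hr hr' hr'.1 hr.1 (mul_pos hr.1 hr'.1) fun t => by
    rw [Derivation.leibniz, smul_eq_mul, smul_eq_mul]
    ring

theorem cls_disj {a b a' b' : Finset K} {r : ℝ} (hr : r ∈ cls hx blk a b)
    (hr' : r ∈ cls hx blk a' b') : (a, b) = (a', b') := by
  ext β
  · exact (hr.2 β).1.trans (hr'.2 β).1.symm
  · exact (hr.2 β).2.trans (hr'.2 β).2.symm

variable (hx blk) in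
theorem exists_cls {r : ℝ} (hr : 0 < r) : ∃ a b : Finset K, r ∈ cls hx blk a b := by
  classical
  have h1 : {β | LPd x blk β fun t => pd hx t r}.Finite := by
    refine ((finite_supp hx r).image blk).subset ?_
    rintro β ⟨t, rfl, h, _⟩
    exact ⟨t, h.ne', rfl⟩
  have h2 : {β | LPd x blk β fun t => - pd hx t r}.Finite := by
    refine ((finite_supp hx r).image blk).subset ?_
    rintro β ⟨t, rfl, h, _⟩
    refine ⟨t, fun h0 => ?_, rfl⟩
    simp only [h0, neg_zero, lt_irrefl] at h
  exact ⟨h1.toFinset, h2.toFinset, hr, fun β => ⟨by simp, by simp⟩⟩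

end

/-! ### The classes are sigma-compact -/

section

variable {τ K : Type*} {x : τ → ℝ} (hx : IsTranscendenceBasis ℚ x) (blk : τ → K)

theorem continuous_aeval' {σ : Type*} (q : MvPolynomial σ ℚ) :
    Continuous fun c : σ → ℝ => aeval c q := by
  have h4 : (fun c : σ → ℝ => aeval c q) = fun c => eval c (q.map (algebraMap ℚ ℝ)) := by
    funext c
    rw [eval_map]
    rfl
  rw [h4]
  exact continuous_eval _

/-- the condition on the block `β` -/
def condB {n : ℕ} (q : MvPolynomial (Option (Fin n)) ℚ) (b : Fin n → K) (ε : ℝ) (β : K) :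
    Set (Option (Fin n) → ℝ) :=
  {c | ∃ i, b i = β ∧ 0 < ε * (aeval c (pderiv (some i) q) * aeval c (pderiv none q)) ∧
    ∀ j, b j = β → c (some i) < c (some j) → aeval c (pderiv (some j) q) = 0}

variable (x) in
/-- the set of tuples of real numbers which describe members of a class -/
def W (S S' : Finset K) {n : ℕ} (q : MvPolynomial (Option (Fin n)) ℚ) (b : Fin n → K) :
    Set (Option (Fin n) → ℝ) :=
  {c | 0 < c none} ∩ {c | aeval c q = 0} ∩ {c | aeval c (pderiv none q) ≠ 0} ∩
    (⋂ i : Fin n, ⋂ j : Fin n, {c | i ≠ j → c (some i) ≠ c (some j)}) ∩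
    (⋂ i : Fin n, (fun c : Option (Fin n) → ℝ => c (some i)) ⁻¹' (x '' {t | blk t = b i})) ∩
    (⋂ β : S, condB q b (-1) β) ∩ (⋂ β : S', condB q b 1 β)

theorem sc_condB {n : ℕ} (q : MvPolynomial (Option (Fin n)) ℚ) (b : Fin n → K) (ε : ℝ) (β : K) :
    IsSigmaCompact (condB q b ε β) := by
  have h1 : condB q b ε β = ⋃ i : Fin n, ({c | b i = β ∧
      0 < ε * (aeval c (pderiv (some i) q) * aeval c (pderiv none q))} ∩
      ⋂ j : Fin n, {c | b j = β → c (some i) < c (some j) →
        aeval c (pderiv (some j) q) = 0}) := by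
    ext c
    simp only [condB, mem_ofPred_eq, mem_iUnion, mem_inter_iff, mem_iInter, and_assoc]
  rw [h1]
  refine isSigmaCompact_iUnion _ fun i => sc_inter ?_ (sc_iInter fun j => ?_)
  · by_cases hb : b i = β
    · simp only [hb, true_and]
      exact sc_open (isOpen_lt continuous_const
        (continuous_const.mul ((continuous_aeval' _).mul (continuous_aeval' _))))
    · simp only [hb, false_and, ofPred_false]
      exact isSigmaCompact_empty
  · by_cases hb : b j = β
    · have h2 : {c : Option (Fin n) → ℝ | b j = β → c (some i) < c (some j) →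
          aeval c (pderiv (some j) q) = 0} =
          {c | c (some j) ≤ c (some i)} ∪ {c | aeval c (pderiv (some j) q) = 0} := by
        ext c
        simp only [hb, true_imp_iff, mem_ofPred_eq, mem_union]
        rw [imp_iff_not_or, not_lt]
      rw [h2]
      exact sc_closed ((isClosed_le (continuous_apply (some j)) (continuous_apply (some i))).union
        (isClosed_eq (continuous_aeval' _) continuous_const))
    · simp only [hb, false_imp_iff, ofPred_true]
      exact isSigmaCompact_univ

theorem sc_W (hblk : ∀ k, IsSigmaCompact (x '' {t | blk t = k})) (S S' : Finset K) {n : ℕ}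
    (q : MvPolynomial (Option (Fin n)) ℚ) (b : Fin n → K) : IsSigmaCompact (W x blk S S' q b) := by
  refine sc_inter (sc_inter (sc_inter (sc_inter (sc_inter (sc_inter ?_ ?_) ?_) ?_) ?_) ?_) ?_
  · exact sc_open (isOpen_lt continuous_const (continuous_apply _))
  · exact sc_closed (isClosed_eq (continuous_aeval' _) continuous_const)
  · exact sc_open (isOpen_ne_fun (continuous_aeval' _) continuous_const)
  · refine sc_iInter fun i => sc_iInter fun j => ?_
    by_cases hij : i = j
    · simp only [hij, ne_eq, not_true_eq_false, false_imp_iff, ofPred_true]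
      exact isSigmaCompact_univ
    · simp only [ne_eq, hij, not_false_eq_true, true_imp_iff]
      exact sc_open (isOpen_ne_fun (continuous_apply _) (continuous_apply _))
  · exact sc_iInter fun i => sc_preimage (continuous_apply _) (hblk _)
  · exact sc_iInter fun β => sc_condB _ _ _ _
  · exact sc_iInter fun β => sc_condB _ _ _ _

theorem cls_eq (a b : Finset K) [DecidableEq K] :
    cls hx blk a b = ⋃ D : Σ n : ℕ, MvPolynomial (Option (Fin n)) ℚ × (Fin n → ↥(a ∪ b)),
      (fun c : Option (Fin D.1) → ℝ => c none) '' W x blk a b D.2.1 (fun i => (D.2.2 i).1) := by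
  have hinj : Function.Injective x := hx.1.injective
  ext r
  simp only [mem_iUnion, mem_image]
  constructor
  · intro hr
    obtain ⟨n, s, q, hs, hsp, h0, h1⟩ := rel_supp hx r
    set c : Option (Fin n) → ℝ := fun o => o.elim r fun i => x (s i) with hc
    have hsab : ∀ i, blk (s i) ∈ a ∪ b := by
      intro i
      by_contra h2
      rw [Finset.mem_union, not_or] at h2
      exact hsp i (cls_zero hr h2.1 h2.2)
    have hP : ∀ i, aeval c (pderiv (some i) q) = - (aeval c (pderiv none q) * pd hx (s i) r) := by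
      intro i
      rw [pd_rel_some hx hs h0 i, neg_neg]
    have hcond : ∀ β ε, LPd x blk β (fun t => - ε * pd hx t r) → c ∈ condB q (blk ∘ s) ε β := by
      rintro β ε ⟨t, rfl, ht1, ht2⟩
      obtain ⟨i, rfl⟩ : ∃ i, s i = t := by
        by_contra hcon
        push Not at hcon
        simp only [pd_rel_none hx h0 h1 hcon, mul_zero, lt_irrefl] at ht1
      refine ⟨i, rfl, ?_, fun j hj hij => ?_⟩
      · rw [hP i]
        have : 0 < (aeval c (pderiv none q)) ^ 2 := by positivity
        nlinarith [mul_pos this ht1]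
      · have h3 := ht2 (s j) hj hij
        have h4 : ε ≠ 0 := by
          rintro rfl
          simp at ht1
        rw [hP j]
        have h5 : pd hx (s j) r = 0 := by
          rcases mul_eq_zero.1 h3 with h | h
          · exact absurd (neg_eq_zero.1 h) h4
          · exact h
        rw [h5]
        simp
    refine ⟨⟨n, q, fun i => ⟨blk (s i), hsab i⟩⟩, c, ?_, rfl⟩
    refine ⟨⟨⟨⟨⟨⟨hr.1, h0⟩, h1⟩, ?_⟩, ?_⟩, ?_⟩, ?_⟩
    · simp only [mem_iInter, mem_ofPred_eq]
      intro i j hij h
      exact hij (hs (hinj h))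
    · simp only [mem_iInter, mem_preimage]
      intro i
      exact ⟨s i, rfl, rfl⟩
    · rw [mem_iInter]
      intro β
      refine hcond β (-1) ?_
      simpa using (hr.2 β).1.1 β.2
    · rw [mem_iInter]
      intro β
      refine hcond β 1 ?_
      simpa using (hr.2 β).2.1 β.2
  · rintro ⟨⟨n, q, bl⟩, c, ⟨⟨⟨⟨⟨⟨hpos, h0⟩, h1⟩, hne⟩, hbl⟩, hca⟩, hcb⟩, rfl⟩
    simp only [mem_iInter, mem_preimage, mem_ofPred_eq] at hpos h0 h1 hne hbl hca hcb
    choose s hs1 hs2 using hbl
    have hs : Function.Injective s := by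
      intro i j hij
      by_contra h
      apply hne i j h
      rw [← hs2 i, ← hs2 j, hij]
    set r := c none with hr
    have hc : c = fun o : Option (Fin n) => o.elim r fun i => x (s i) := by
      funext o
      rcases o with _ | i
      · rfl
      · exact (hs2 i).symm
    have h0' := h0
    have h1' := h1
    rw [hc] at h0' h1'
    have hP : ∀ i, aeval c (pderiv none q) * pd hx (s i) r = - aeval c (pderiv (some i) q) := by
      intro i
      have := pd_rel_some hx hs h0' i
      rw [← hc] at this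
      exact this
    have hcond : ∀ β ε, c ∈ condB q (fun i => (bl i).1) ε β →
        LPd x blk β (fun t => - ε * pd hx t r) := by
      rintro β ε ⟨i, hi, hi1, hi2⟩
      refine ⟨s i, (hs1 i).trans hi, ?_, fun t' ht' hlt => ?_⟩
      · have h3 : 0 < (aeval c (pderiv none q)) ^ 2 * (- ε * pd hx (s i) r) := by
          have h4 : (aeval c (pderiv none q)) ^ 2 * (- ε * pd hx (s i) r) =
            ε * (-(aeval c (pderiv none q) * pd hx (s i) r) * aeval c (pderiv none q)) := by ring
          rw [h4, hP i, neg_neg]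
          exact hi1
        exact (pos_iff_pos_of_mul_pos h3).1 (by positivity)
      · by_cases h3 : ∃ j, s j = t'
        · obtain ⟨j, rfl⟩ := h3
          rw [hs2, hs2] at hlt
          have h4 := hi2 j ((hs1 j).symm.trans ht') hlt
          have h5 := hP j
          rw [h4, neg_zero] at h5
          rcases mul_eq_zero.1 h5 with h6 | h6
          · exact absurd h6 h1
          · simp only [h6, mul_zero]
        · push Not at h3
          simp only [pd_rel_none hx h0' h1' h3, mul_zero]
    have ha : ∀ β ∈ a, LPd x blk β fun t => pd hx t r := by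
      intro β hβ
      simpa using hcond β (-1) (hca ⟨β, hβ⟩)
    have hb : ∀ β ∈ b, LPd x blk β fun t => - pd hx t r := by
      intro β hβ
      simpa using hcond β 1 (hcb ⟨β, hβ⟩)
    have hin : ∀ t, pd hx t r ≠ 0 → blk t ∈ a ∨ blk t ∈ b := by
      intro t ht
      obtain ⟨i, rfl⟩ : ∃ i, s i = t := by
        by_contra hcon
        push Not at hcon
        exact ht (pd_rel_none hx h0' h1' hcon)
      rw [hs1 i]
      exact Finset.mem_union.1 (bl i).2
    refine ⟨hpos, fun β => ⟨⟨ha β, fun h => ?_⟩, ⟨hb β, fun h => ?_⟩⟩⟩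
    · have h2 := h
      obtain ⟨t, rfl, ht, _⟩ := h2
      rcases hin t ht.ne' with h3 | h3
      · exact h3
      · exact (h.excl hinj (hb _ h3)).elim
    · have h2 := h
      obtain ⟨t, rfl, ht, _⟩ := h2
      rcases hin t (by intro h0; simp only [h0, neg_zero, lt_irrefl] at ht) with h3 | h3
      · exact ((ha _ h3).excl hinj h).elim
      · exact h3

theorem countable_mv (n : ℕ) : Countable (MvPolynomial (Option (Fin n)) ℚ) := by
  have h := MvPolynomial.cardinalMk_le_max (R := ℚ) (σ := Option (Fin n))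
  rw [← Cardinal.mk_le_aleph0_iff]
  refine h.trans ?_
  simp

theorem sc_cls (hblk : ∀ k, IsSigmaCompact (x '' {t | blk t = k})) (a b : Finset K) :
    IsSigmaCompact (cls hx blk a b) := by
  classical
  rw [cls_eq hx blk a b]
  have := countable_mv
  exact isSigmaCompact_iUnion _ fun D => (sc_W blk hblk a b _ _).image (continuous_apply _)

end

end Pool.Agent.H504.BP
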