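import Mathlib
import Pool.Agent.H504.BP.Alg1
import Pool.Agent.H504.BP.Alg3

/-!
# Partitions into semirings from the combinatorial hypothesis
-/

namespace Pool.Agent.H504.BP

open MvPolynomial Set Cardinal

universe u

theorem isClosed_pre (σ : List Bool) : IsClosed {x : ℕ → Bool | Pre σ x} := by
  have h : {x : ℕ → Bool | Pre σ x} = ⋂ i : ℕ, {x | i < σ.length → σ.getD i false = x i} := by
    ext x
    simp only [Pre, mem_ofPred_eq, mem_iInter]
  rw [h]
  refine isClosed_iInter fun i => ?_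
  by_cases hi : i < σ.length
  · simp only [hi, true_imp_iff]
    exact isClosed_eq continuous_const (continuous_apply i)
  · simp only [hi, false_imp_iff, ofPred_true]
    exact isClosed_univ

theorem sc_memC (g : ℕ → ℕ) : IsSigmaCompact {x : ℕ → Bool | MemC g x} := by
  have h : {x : ℕ → Bool | MemC g x} = ⋃ N : ℕ, ⋂ n : ℕ, {x | N ≤ n → ∃ σ ∈ dec (g n), Pre σ x} := by
    ext x
    simp only [MemC, mem_ofPred_eq, mem_iInter, mem_iUnion]
  rw [h]
  refine isSigmaCompact_iUnion _ fun N => sc_closed (isClosed_iInter fun n => ?_)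
  by_cases hn : N ≤ n
  · have h2 : {x : ℕ → Bool | N ≤ n → ∃ σ ∈ dec (g n), Pre σ x} =
        ⋃ σ ∈ dec (g n), {x | Pre σ x} := by
      ext x
      simp only [hn, true_imp_iff, mem_ofPred_eq, mem_iUnion, exists_prop]
    rw [h2]
    exact (dec (g n)).finite_toSet.isClosed_biUnion fun σ _ => isClosed_pre σ
  · simp only [hn, false_imp_iff, ofPred_true]
    exact isClosed_univ

/-- a set of positive real numbers which is nonempty and closed under addition and
multiplication -/
def SemiringPiece (B : Set ℝ) : Prop :=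
  B.Nonempty ∧ B ⊆ Ioi 0 ∧ (∀ x ∈ B, ∀ y ∈ B, x + y ∈ B) ∧ ∀ x ∈ B, ∀ y ∈ B, x * y ∈ B

/-- a partition of the positive real numbers into Borel semiring pieces -/
def BorelPartition (Q : Set (Set ℝ)) : Prop :=
  (∀ B ∈ Q, MeasurableSet B ∧ SemiringPiece B) ∧ Q.PairwiseDisjoint id ∧ ⋃₀ Q = Ioi 0

variable {K : Type u} [LinearOrder K] {g : K → ℕ → ℕ}

/-- the block of a point of the transcendence basis -/
noncomputable def blkT (g : K → ℕ → ℕ) (t : TT g) : K := t.2.choose

theorem blkT_eq (hI : Ind SafeA g) {t : TT g} {k : K} : blkT g t = k ↔ MemC (g k) t.1 := by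
  constructor
  · rintro rfl
    exact t.2.choose_spec
  · intro h
    exact disj hI t.2.choose_spec h

theorem image_blk (hI : Ind SafeA g) (k : K) :
    (fun t : TT g => rv t) '' {t | blkT g t = k} = rv '' {x | MemC (g k) x} := by
  ext r
  constructor
  · rintro ⟨t, ht, rfl⟩
    exact ⟨t, (blkT_eq hI).1 ht, rfl⟩
  · rintro ⟨x, hx, rfl⟩
    exact ⟨⟨x, k, hx⟩, (blkT_eq hI).2 hx, rfl⟩

theorem not_subsingleton_TT (hI : Ind SafeA g) (hC : Cov SafeA g) : Nonempty (TT g) := by
  by_contra hne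
  rw [not_nonempty_iff] at hne
  have h1 := (transBasis hI hC).isEmpty_iff_isAlgebraic.1 hne
  have h2 := Algebra.IsAlgebraic.cardinalMk_le_max ℚ ℝ
  rw [Cardinal.mk_real] at h2
  have h3 : max #ℚ ℵ₀ ≤ ℵ₀ := by simp
  exact absurd (h2.trans h3) (not_le.2 Cardinal.aleph0_lt_continuum)

/-- the partition into classes -/
def part (hI : Ind SafeA g) (hC : Cov SafeA g) : Set (Set ℝ) :=
  {B | B.Nonempty ∧ ∃ p : Finset K × Finset K, B = cls (transBasis hI hC) (blkT g) p.1 p.2}

theorem part_sc (hI : Ind SafeA g) (hC : Cov SafeA g) {B : Set ℝ} (hB : B ∈ part hI hC) :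
    IsSigmaCompact B := by
  obtain ⟨_, p, rfl⟩ := hB
  refine sc_cls _ _ (fun k => ?_) _ _
  rw [image_blk hI]
  exact (sc_memC (g k)).image continuous_rv

theorem part_borel (hI : Ind SafeA g) (hC : Cov SafeA g) : BorelPartition (part hI hC) := by
  refine ⟨fun B hB => ⟨sc_measurable (part_sc hI hC hB), ?_⟩, ?_, ?_⟩
  · obtain ⟨hne, p, rfl⟩ := hB
    exact ⟨hne, fun r hr => hr.1, fun x hx y hy => cls_add hx hy, fun x hx y hy => cls_mul hx hy⟩
  · rintro B ⟨_, p, rfl⟩ B' ⟨_, p', rfl⟩ hne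
    show Disjoint (id _) (id _)
    rw [id, id, Set.disjoint_left]
    intro r hr hr'
    have h1 := cls_disj hr hr'
    apply hne
    have h2 : p = p' := h1
    rw [h2]
  · ext r
    constructor
    · rintro ⟨B, ⟨_, p, rfl⟩, hr⟩
      exact hr.1
    · intro hr
      obtain ⟨a, b, hab⟩ := exists_cls (transBasis hI hC) (blkT g) hr
      exact ⟨_, ⟨⟨r, hab⟩, (a, b), rfl⟩, hab⟩

theorem one_lt_part (hI : Ind SafeA g) (hC : Cov SafeA g) : (1 : Cardinal) < #(part hI hC) := by
  obtain ⟨t⟩ := not_subsingleton_TT hI hC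
  set hx := transBasis hI hC with hxdef
  rw [Cardinal.one_lt_iff_nontrivial]
  have h0 := rv_nonneg t.1
  have h1 := rv_le_one t.1
  obtain ⟨a, b, hab⟩ := exists_cls hx (blkT g) (r := 1 + rv t.1) (by linarith)
  obtain ⟨a', b', hab'⟩ := exists_cls hx (blkT g) (r := 2 - rv t.1) (by linarith)
  have hd : ∀ t', pd hx t' (1 + rv t.1) = pd hx t' (rv t.1) := fun t' => by
    rw [map_add, Derivation.map_one_eq_zero, zero_add]
  have hd' : ∀ t', pd hx t' (2 - rv t.1) = - pd hx t' (rv t.1) := fun t' => by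
    have h2 : pd hx t' (2 : ℝ) = 0 := by
      have := (pd hx t').map_natCast 2
      exact_mod_cast this
    rw [map_sub, h2, zero_sub]
  have ht : pd hx t (rv t.1) = 1 := pd_same hx t
  have ht' : ∀ t', t' ≠ t → pd hx t' (rv t.1) = 0 := fun t' h => pd_ne hx (t := t') (t' := t) h.symm
  have hL : LPd (fun t : TT g => rv t) (blkT g) (blkT g t) fun t' => pd hx t' (rv t.1) :=
    ⟨t, rfl, by simp only [ht]; exact one_pos, fun t' _ h => ht' t' (by rintro rfl; simp at h)⟩
  refine ⟨⟨_, ⟨⟨_, hab⟩, (a, b), rfl⟩⟩, ⟨_, ⟨⟨_, hab'⟩, (a', b'), rfl⟩⟩, fun h => ?_⟩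
  have h2 : cls hx (blkT g) a b = cls hx (blkT g) a' b' := congrArg Subtype.val h
  have h3 : 2 - rv t.1 ∈ cls hx (blkT g) a b := by
    rw [h2]
    exact hab'
  have h4 : blkT g t ∈ a := by
    rw [(hab.2 _).1]
    simp only [hd]
    exact hL
  have h5 := (h3.2 _).1.1 h4
  simp only [hd'] at h5
  exact hL.excl hx.1.injective h5

theorem part_le (hI : Ind SafeA g) (hC : Cov SafeA g) [Infinite K] :
    Cardinal.lift.{u} #(part hI hC) ≤ Cardinal.lift.{0} #K := by
  have h1 : #(Finset K × Finset K) = #K := by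
    rw [Cardinal.mk_prod, Cardinal.mk_finset_of_infinite, Cardinal.lift_id,
      Cardinal.mul_eq_self (Cardinal.aleph0_le_mk K)]
  rw [← h1]
  let f : part hI hC → Finset K × Finset K := fun B => B.2.2.choose
  have hf : Function.Injective f := by
    intro B B' h
    apply Subtype.ext
    rw [B.2.2.choose_spec, B'.2.2.choose_spec]
    have h' : B.2.2.choose = B'.2.2.choose := h
    rw [h']
  exact Cardinal.lift_mk_le'.2 ⟨⟨f, hf⟩⟩

/-- The combinatorial hypothesis gives a partition of the positive real numbers into fewer than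
continuum many, but more than one, Borel semirings. -/
theorem semiring_partition [Infinite K] (h : HH SafeA K) :
    ∃ Q : Set (Set ℝ), BorelPartition Q ∧ (∀ B ∈ Q, IsSigmaCompact B) ∧ 1 < #Q ∧ #Q < 𝔠 := by
  obtain ⟨⟨g, hI, hC⟩, hK⟩ := h
  refine ⟨part hI hC, part_borel hI hC, fun B hB => part_sc hI hC hB, one_lt_part hI hC, ?_⟩
  by_contra hcon
  rw [not_lt] at hcon
  apply hK
  have h1 : Cardinal.lift.{u} #(ℕ → Bool) ≤ Cardinal.lift.{0} #K := by
    refine le_trans ?_ (part_le hI hC)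
    rw [Cardinal.lift_le]
    refine le_trans (le_of_eq ?_) hcon
    simp
  rw [Cardinal.lift_mk_le'] at h1
  obtain ⟨f⟩ := h1
  have : Nonempty (ℕ → Bool) := ⟨fun _ => false⟩
  exact ⟨Function.invFun f, fun x => ⟨f x, (Function.leftInverse_invFun f.injective x).symm⟩⟩

end Pool.Agent.H504.BP
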